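import Pool.Agent.Work.MP_e17eac_co.Bd.B14

/-!
# Arbitrary sets, block GP: the good pair lemma from its ingredients
-/

set_option autoImplicit false

namespace Pool.Agent.Work.MP_e17eac_co.MX

open Finset
open Pool.Agent.Work.MP_e17eac_co.DH
open Pool.Agent.Work.MP_e17eac_co.DH.XSWEEP (GP)

namespace XGPM

variable {ι : Type} [Fintype ι] [DecidableEq ι]

/-- First edge of the class `k`. -/
noncomputable def loV (c : ℕ → ℕ) (k : ℕ) : ℕ := sInf {m | c m = k}

/-- Last edge of the class `k`. -/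
def hiV (K : KSys ι) (c : ℕ → ℕ) (k : ℕ) : ℕ := ((range K.N).filter (fun m => c m = k)).sup id

lemma lo_eq (c : ℕ → ℕ) (n : ℕ) : lo c n = loV c (c n) := rfl

lemma hi_eq (K : KSys ι) (c : ℕ → ℕ) (n : ℕ) : hi K c n = hiV K c (c n) := rfl

/-- The rotated partition. -/
def rc (N M : ℕ) (c : ℕ → ℕ) (n : ℕ) : ℕ := M - 1 - c (N - 1 - n)

lemma rc_eq_iff {K : KSys ι} {M : ℕ} {c : ℕ → ℕ} (hc : IsCells K M c) {n m : ℕ} (hn : n < K.N)
    (hm : m < K.N) : rc K.N M c n = rc K.N M c m ↔ c (K.N - 1 - n) = c (K.N - 1 - m) := by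
  have h1 := hc.lt (K.N - 1 - n) (by omega)
  have h2 := hc.lt (K.N - 1 - m) (by omega)
  unfold rc
  omega

lemma rotCells {K K' : KSys ι} {M : ℕ} {c : ℕ → ℕ} (hc : IsCells K M c) (hN : K'.N = K.N)
    (hM : 1 ≤ M) : IsCells K' M (rc K.N M c) := by
  refine ⟨?_, ?_, ?_⟩
  · intro n m hnm hm
    rw [hN] at hm
    have := hc.mono (K.N - 1 - m) (K.N - 1 - n) (by omega) (by omega)
    unfold rc
    omega
  · intro n hn
    unfold rc
    omega
  · intro k
    rw [hN]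
    by_cases hk : k < M
    · refine le_trans (Nat.mul_le_mul_right M ?_) (hc.size (M - 1 - k))
      refine card_le_card_of_injOn (fun n => K.N - 1 - n) ?_ ?_
      · intro n hn
        simp only [coe_filter, mem_range, Set.mem_ofPred_eq] at hn ⊢
        have h1 := hc.lt (K.N - 1 - n) (by omega)
        unfold rc at hn
        refine ⟨by omega, by omega⟩
      · intro n hn m hm h
        simp only [coe_filter, mem_range, Set.mem_ofPred_eq] at hn hm h
        omega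
    · have h0 : (range K.N).filter (fun n => rc K.N M c n = k) = ∅ := by
        rw [filter_eq_empty_iff]
        intro n hn h
        unfold rc at h
        omega
      rw [h0]
      simp

lemma rotLoHi (h4 : StLoHi) {K K' : KSys ι} {M : ℕ} {c : ℕ → ℕ} (hc : IsCells K M c)
    (hN : K'.N = K.N) (hM : 1 ≤ M) {n : ℕ} (hn : n < K.N) :
    lo (rc K.N M c) (K.N - 1 - n) = K.N - 1 - hi K c n ∧
      hi K' (rc K.N M c) (K.N - 1 - n) = K.N - 1 - lo c n := by
  obtain ⟨a1, a2, a3, a4, a5, a6, -, -, -⟩ := h4 ι K M c hc n hn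
  obtain ⟨b1, b2, b3, b4, b5, b6, -, -, -⟩ := h4 ι K' M _ (rotCells hc hN hM) (K.N - 1 - n)
    (by omega)
  rw [hN] at b3
  have e : K.N - 1 - (K.N - 1 - n) = n := by omega
  have c1 : c (K.N - 1 - lo (rc K.N M c) (K.N - 1 - n)) = c n := by
    have := (rc_eq_iff hc (n := lo (rc K.N M c) (K.N - 1 - n)) (m := K.N - 1 - n) (by omega)
      (by omega)).1 b4
    rwa [e] at this
  have c2 : c (K.N - 1 - hi K' (rc K.N M c) (K.N - 1 - n)) = c n := by
    have := (rc_eq_iff hc (n := hi K' (rc K.N M c) (K.N - 1 - n)) (m := K.N - 1 - n) (by omega)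
      (by omega)).1 b5
    rwa [e] at this
  have d1 := (a6 _ (by omega)).1 c1
  have d2 := (a6 _ (by omega)).1 c2
  have e1 : K.N - 1 - (K.N - 1 - hi K c n) = hi K c n := by omega
  have e2 : K.N - 1 - (K.N - 1 - lo c n) = lo c n := by omega
  have f1 := (b6 (K.N - 1 - hi K c n) (by omega)).1 ((rc_eq_iff hc (by omega) (by omega)).2
    (by rw [e, e1, a5]))
  have f2 := (b6 (K.N - 1 - lo c n) (by omega)).1 ((rc_eq_iff hc (by omega) (by omega)).2
    (by rw [e, e2, a4]))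
  constructor <;> omega

/-- The children of the cell `z` which contain edges of `E` of the line `i`. -/
def UU (K : KSys ι) (c cp : ℕ → ℕ) (E : Finset ℕ) (i : ι) (z : ℕ) : Finset ℕ :=
  (E.filter (fun m => K.a m = i ∧ c m = z)).image cp

/-- Centre children. -/
def Ctr (K : KSys ι) (c cp : ℕ → ℕ) (Q : ℝ) (E : Finset ℕ) (i : ι) (z b : ℕ) : Prop :=
  b ∈ UU K c cp E i z ∧
  (∀ u ∈ UU K c cp E i z, u < b → K.t (loV cp b) - K.t (hiV K cp u) <
    4 / Q * (K.t (hiV K cp u) - K.t (loV cp u))) ∧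
  (∀ u ∈ UU K c cp E i z, b < u → K.t (loV cp u) - K.t (hiV K cp b) <
    4 / Q * (K.t (hiV K cp u) - K.t (loV cp u)))

lemma exCtr (h3 : StSup) (h4 : StLoHi) {K : KSys ι} {M : ℕ} {c cp : ℕ → ℕ}
    (hcp : IsCells K M cp) {E : Finset ℕ} (hE : E ⊆ range K.N) {Q : ℝ} (hQ : 8 ≤ Q) {n : ℕ}
    (hn : n ∈ E) (hg : ¬ HasGood K c cp Q E n) :
    ∃ b, Ctr K c cp Q E (K.a n) (c n) b := by
  have hmem : ∀ u ∈ UU K c cp E (K.a n) (c n), ∃ m ∈ E, K.a m = K.a n ∧ c m = c n ∧ cp m = u := by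
    intro u hu
    unfold UU at hu
    simp only [mem_image, mem_filter] at hu
    obtain ⟨m, ⟨h1, h2, h3⟩, h4⟩ := hu
    exact ⟨m, h1, h2, h3, h4⟩
  have htle : ∀ p q : ℕ, p ≤ q → q < K.N → K.t p ≤ K.t q := by
    intro p q hpq hq
    rcases hpq.lt_or_eq with h | h
    · exact (K.t_lt p q h hq).le
    · rw [h]
  obtain ⟨b, hb, hb1, hb2⟩ := h3 (UU K c cp E (K.a n) (c n)) (fun k => K.t (loV cp k))
    (fun k => K.t (hiV K cp k)) Q hQ ⟨cp n, by
      unfold UU
      exact mem_image_of_mem _ (mem_filter.2 ⟨hn, rfl, rfl⟩)⟩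
    (by
      intro u hu
      obtain ⟨m, hm, -, -, rfl⟩ := hmem u hu
      obtain ⟨a1, a2, a3, -⟩ := h4 ι K M cp hcp m (mem_range.1 (hE hm))
      exact htle _ _ (le_trans a1 a2) a3)
    (by
      intro u hu u' hu' huu
      obtain ⟨m, hm, -, -, rfl⟩ := hmem u hu
      obtain ⟨m', hm', -, -, rfl⟩ := hmem u' hu'
      obtain ⟨-, -, -, -, -, -, -, a8, -⟩ := h4 ι K M cp hcp m (mem_range.1 (hE hm))
      obtain ⟨b1, -, -, b4, -⟩ := h4 ι K M cp hcp m' (mem_range.1 (hE hm'))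
      have hm'' := mem_range.1 (hE hm')
      have h5 := (a8 (lo cp m') (by omega)).1 (by rw [b4]; exact huu)
      exact K.t_lt _ _ h5 (lt_of_le_of_lt b1 hm''))
    (by
      intro u hu u' hu' huu
      obtain ⟨m, hm, ha, hc, rfl⟩ := hmem u hu
      obtain ⟨m', hm', ha', hc', rfl⟩ := hmem u' hu'
      by_contra hcon
      push Not at hcon
      apply hg
      refine ⟨m, hm, m', hm', ha, hc, ?_, ?_, huu, hcon⟩
      · rw [ha, ha']
      · rw [hc, hc'])
  exact ⟨b, hb, hb1, hb2⟩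

/-- The centre class depends on the class only: few pairs. -/
lemma im_le {E : Finset ℕ} {c cp : ℕ → ℕ} {a : ℕ → ι} (b0 : ι → ℕ → ℕ)
    (h : ∀ n ∈ E, cp n = b0 (a n) (c n)) :
    im E (fun n => (cp n, a n)) ≤ im E (fun n => (c n, a n)) := by
  unfold im
  have h1 : E.image (fun n => (cp n, a n)) =
      (E.image (fun n => (c n, a n))).image (fun z : ℕ × ι => (b0 z.2 z.1, z.2)) := by
    rw [image_image]
    refine image_congr ?_
    intro n hn
    simp only [Function.comp]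
    rw [h n hn]
  rw [h1]
  exact card_image_le

/-- Numerical part of the case of the centre children. -/
lemma num_c {C1 C2 n B G Q H U1 U2 : ℝ} {D K0 : ℕ} (hC1 : 1 ≤ C1) (hC2 : 1 ≤ C2) (hn : 0 < n)
    (hB : 1 ≤ B) (hG0 : 1 ≤ G) (hQ : 8 + C1 * C2 ≤ Q) (hH : H = 2 * Q ^ (D + 1))
    (hG : Q ^ ((3 * K0 + 200) * (D + 1)) ≤ G)
    (h1 : U1 ≤ C1 * n * B ^ ((1 : ℝ) / 4)) (h2 : n * (B * G) ^ ((1 : ℝ) / 4) ≤ C2 * H ^ 9 * U2)
    (h3 : U2 ≤ U1) : False := by
  have hQ8 : 8 ≤ Q := by nlinarith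
  have hQ1 : 1 ≤ Q := by linarith
  have hH0 : 0 ≤ H := by rw [hH]; positivity
  have hB4 : 0 < B ^ ((1 : ℝ) / 4) := Real.rpow_pos_of_pos (by linarith) _
  have e1 : (B * G) ^ ((1 : ℝ) / 4) = B ^ ((1 : ℝ) / 4) * G ^ ((1 : ℝ) / 4) :=
    Real.mul_rpow (by linarith) (by linarith)
  have h4 : n * (B ^ ((1 : ℝ) / 4) * G ^ ((1 : ℝ) / 4)) ≤
      C2 * H ^ 9 * (C1 * n * B ^ ((1 : ℝ) / 4)) := by
    rw [← e1]
    refine le_trans h2 (mul_le_mul_of_nonneg_left (le_trans h3 h1) (by positivity))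
  have h5 : G ^ ((1 : ℝ) / 4) ≤ C1 * C2 * H ^ 9 := by
    have h6 : (n * B ^ ((1 : ℝ) / 4)) * G ^ ((1 : ℝ) / 4) ≤
        (n * B ^ ((1 : ℝ) / 4)) * (C1 * C2 * H ^ 9) := by
      calc (n * B ^ ((1 : ℝ) / 4)) * G ^ ((1 : ℝ) / 4) =
          n * (B ^ ((1 : ℝ) / 4) * G ^ ((1 : ℝ) / 4)) := by ring
        _ ≤ _ := h4
        _ = _ := by ring
    exact le_of_mul_le_mul_left h6 (by positivity)
  have h7 : H ≤ Q ^ (D + 2) := by
    rw [hH, pow_succ Q (D + 1)]
    have : 0 < Q ^ (D + 1) := by positivity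
    nlinarith
  have h8 : C1 * C2 * H ^ 9 ≤ Q ^ (9 * D + 19) := by
    calc C1 * C2 * H ^ 9 ≤ Q * (Q ^ (D + 2)) ^ 9 := by
          refine mul_le_mul (by linarith) (pow_le_pow_left₀ hH0 h7 9) (by positivity)
            (by linarith)
      _ = Q ^ (9 * D + 19) := by ring
  have h9 : G = (G ^ ((1 : ℝ) / 4)) ^ 4 := by
    rw [← Real.rpow_natCast, ← Real.rpow_mul (by linarith)]
    norm_num
  have h10 : G ≤ Q ^ (36 * D + 76) := by
    rw [h9]
    calc (G ^ ((1 : ℝ) / 4)) ^ 4 ≤ (Q ^ (9 * D + 19)) ^ 4 :=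
          pow_le_pow_left₀ (Real.rpow_nonneg (by linarith) _) (le_trans h5 h8) 4
      _ = Q ^ (36 * D + 76) := by ring
  have h11 : Q ^ (36 * D + 76) < Q ^ ((3 * K0 + 200) * (D + 1)) := by
    refine pow_lt_pow_right₀ (by linarith) ?_
    have e : (3 * K0 + 200) * (D + 1) = 3 * K0 * (D + 1) + (200 * D + 200) := by ring
    rw [e]
    have := Nat.zero_le (3 * K0 * (D + 1))
    omega
  linarith

end XGPM

open XGPM in
theorem I_GP (h1 : StUp) (h2 : StLow) (h3 : StSup) (h4 : StGPL) (h5 : StRot) (h6 : StLoHi) :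
    StGP := by
  obtain ⟨C1, hC1, h1⟩ := h1
  obtain ⟨C2, hC2, h2⟩ := h2
  obtain ⟨C0, h4⟩ := h4
  refine ⟨3 * C0 + 200, fun η D hη => ?_⟩
  obtain ⟨m0, h4⟩ := h4 η (D + 2) hη
  obtain ⟨m1, hm1⟩ : ∃ m1 : ℕ, ∀ n : ℕ, m1 ≤ n → 8 + C1 * C2 ≤ (n : ℝ) ^ η := by
    have := (tendsto_rpow_atTop hη).comp (tendsto_natCast_atTop_atTop (R := ℝ))
    obtain ⟨m1, h⟩ := Filter.eventually_atTop.1 (this.eventually_ge_atTop (8 + C1 * C2))
    exact ⟨m1, fun n hn => h n hn⟩
  refine ⟨max m0 (max m1 1), ?_⟩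
  intro ι _ _ K hx hgp hn0 Q hQη hQN B G hB hG hBG c cp hc hcp href E hE hEN F hFE hF
  by_contra hcon
  push Not at hcon
  have hn1 : 1 ≤ Fintype.card ι := le_trans (le_trans (le_max_right _ _) (le_max_right _ _)) hn0
  have hnm0 : m0 ≤ Fintype.card ι := le_trans (le_max_left _ _) hn0
  have hnm1 : m1 ≤ Fintype.card ι := le_trans (le_trans (le_max_left _ _) (le_max_right _ _)) hn0
  have hQR : 8 + C1 * C2 ≤ (Q : ℝ) := le_trans (hm1 _ hnm1) hQη
  have hQ8 : (8 : ℝ) ≤ Q := by nlinarith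
  have hQ8' : 8 ≤ Q := by exact_mod_cast hQ8
  have hG1 : 1 ≤ G := le_trans (Nat.one_le_pow _ _ (by omega)) hG
  have hBG1 : 1 ≤ B * G := Nat.one_le_iff_ne_zero.2 (Nat.mul_ne_zero (by omega) (by omega))
  have hFN : F ⊆ range K.N := fun n hn => hE (hFE hn)
  -- centre children
  have hb : ∀ (i : ι) (z : ℕ), ∃ b, (∃ b', Ctr K c cp Q E i z b') → Ctr K c cp Q E i z b := by
    intro i z
    by_cases h : ∃ b', Ctr K c cp Q E i z b'
    · obtain ⟨b', hb'⟩ := h
      exact ⟨b', fun _ => hb'⟩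
    · exact ⟨0, fun h' => absurd h' h⟩
  choose b0 hb0 using hb
  have hctr : ∀ n ∈ F, Ctr K c cp Q E (K.a n) (c n) (b0 (K.a n) (c n)) := fun n hn =>
    hb0 _ _ (exCtr h3 h6 hcp hE hQ8 (hFE hn) (hF n hn))
  have hrep : ∀ n ∈ F, ∃ m, m < K.N ∧ c m = c n ∧ cp m = b0 (K.a n) (c n) := by
    intro n hn
    have h := (hctr n hn).1
    unfold UU at h
    simp only [mem_image, mem_filter] at h
    obtain ⟨m, ⟨a1, a2, a3⟩, a4⟩ := h
    exact ⟨m, mem_range.1 (hE a1), a3, a4⟩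
  have hself : ∀ n ∈ F, cp n ∈ UU K c cp E (K.a n) (c n) := by
    intro n hn
    unfold UU
    exact mem_image_of_mem _ (mem_filter.2 ⟨hFE hn, rfl, rfl⟩)
  have hNF : K.N ≤ Q ^ (D + 1) * F.card := by
    calc K.N ≤ Q ^ D * E.card := hEN
      _ ≤ Q ^ D * (Q * F.card) := Nat.mul_le_mul_left _ hcon.le
      _ = Q ^ (D + 1) * F.card := by ring
  have hsplit : F.card ≤ (F.filter (fun n => cp n = b0 (K.a n) (c n))).card +
      (F.filter (fun n => cp n < b0 (K.a n) (c n))).card +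
      (F.filter (fun n => b0 (K.a n) (c n) < cp n)).card := by
    have hsub : F ⊆ (F.filter (fun n => cp n = b0 (K.a n) (c n)) ∪
      F.filter (fun n => cp n < b0 (K.a n) (c n))) ∪
      F.filter (fun n => b0 (K.a n) (c n) < cp n) := by
      intro n hn
      simp only [mem_union, mem_filter]
      rcases lt_trichotomy (cp n) (b0 (K.a n) (c n)) with h | h | h
      · exact Or.inl (Or.inr ⟨hn, h⟩)
      · exact Or.inl (Or.inl ⟨hn, h⟩)
      · exact Or.inr ⟨hn, h⟩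
    exact le_trans (card_le_card hsub) (le_trans (card_union_le _ _)
      (Nat.add_le_add_right (card_union_le _ _) _))
  have hcases : F.card ≤ 2 * (F.filter (fun n => cp n = b0 (K.a n) (c n))).card ∨
      F.card ≤ 4 * (F.filter (fun n => cp n < b0 (K.a n) (c n))).card ∨
      F.card ≤ 4 * (F.filter (fun n => b0 (K.a n) (c n) < cp n)).card := by omega
  have hbig : ∀ m : ℕ, F.card ≤ 4 * m → K.N ≤ Q ^ (D + 2) * m := by
    intro m hm
    calc K.N ≤ Q ^ (D + 1) * F.card := hNF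
      _ ≤ Q ^ (D + 1) * (Q * m) := Nat.mul_le_mul_left _ (le_trans hm
          (Nat.mul_le_mul_right _ (by omega)))
      _ = Q ^ (D + 2) * m := by ring
  have hG' : Q ^ (C0 * (D + 2 + 1)) ≤ G := by
    refine le_trans (Nat.pow_le_pow_right (by omega) ?_) hG
    nlinarith [Nat.zero_le (C0 * D)]
  rcases hcases with hcase | hcase | hcase
  · -- the centre children
    have hsubN : F.filter (fun n => cp n = b0 (K.a n) (c n)) ⊆ range K.N :=
      (filter_subset _ _).trans hFN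
    have u1 := ((h1 ι K hx hgp B c hc _ hsubN).1 false)
    have hHge : (1 : ℝ) ≤ 2 * (Q : ℝ) ^ (D + 1) := by
      have : (1 : ℝ) ≤ (Q : ℝ) ^ (D + 1) := one_le_pow₀ (by linarith)
      linarith
    have hNH : (K.N : ℝ) ≤ 2 * (Q : ℝ) ^ (D + 1) *
        ((F.filter (fun n => cp n = b0 (K.a n) (c n))).card : ℝ) := by
      have : K.N ≤ Q ^ (D + 1) * (2 * (F.filter (fun n => cp n = b0 (K.a n) (c n))).card) :=
        le_trans hNF (Nat.mul_le_mul_left _ hcase)
      have h' : (K.N : ℝ) ≤ (Q : ℝ) ^ (D + 1) *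
          (2 * ((F.filter (fun n => cp n = b0 (K.a n) (c n))).card : ℝ)) := by
        exact_mod_cast this
      linarith
    have hnH : (Fintype.card ι : ℝ) ^ ((4 : ℝ) / 3) ≤ 2 * (Q : ℝ) ^ (D + 1) * K.N := by
      refine le_trans hQN (mul_le_mul_of_nonneg_right ?_ (Nat.cast_nonneg _))
      have : (1 : ℝ) ≤ (Q : ℝ) ^ D := one_le_pow₀ (by linarith)
      rw [pow_succ]
      nlinarith
    have u2 := ((h2 ι K hx hgp (B * G) cp hBG1 hBG hcp _ hsubN (2 * (Q : ℝ) ^ (D + 1)) hHge hNH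
      hnH).1 false)
    rw [Nat.cast_mul] at u2
    have u3 : (im (F.filter (fun n => cp n = b0 (K.a n) (c n)))
        (fun n => (cp n, K.ln false n)) : ℝ) ≤
        (im (F.filter (fun n => cp n = b0 (K.a n) (c n))) (fun n => (c n, K.ln false n)) : ℝ) := by
      exact_mod_cast im_le (a := K.ln false) b0 (fun n hn => (mem_filter.1 hn).2)
    exact num_c hC1 hC2 (by exact_mod_cast hn1) (by exact_mod_cast hB)
      (by exact_mod_cast hG1) hQR rfl (by exact_mod_cast hG) u1 u2 u3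
  · -- left of the centre
    refine h4 ι K hx hgp hnm0 Q hQη hQN B G hB hG' hBG c cp hc hcp href
      (F.filter (fun n => cp n < b0 (K.a n) (c n))) ((filter_subset _ _).trans hFN)
      (hbig _ hcase) (fun i z => loV cp (b0 i z)) ?_
    intro n hn
    obtain ⟨hnF, hlt⟩ := mem_filter.1 hn
    have hnN := mem_range.1 (hFN hnF)
    obtain ⟨m, hm, hcm, hcpm⟩ := hrep n hnF
    obtain ⟨-, -, -, -, -, -, -, a8, -⟩ := h6 ι K _ cp hcp n hnN
    obtain ⟨b1, -, -, b4, -⟩ := h6 ι K _ cp hcp m hm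
    have hlo : loV cp (b0 (K.a n) (c n)) = lo cp m := by rw [← hcpm]; rfl
    show hi K cp n < loV cp (b0 (K.a n) (c n)) ∧ loV cp (b0 (K.a n) (c n)) < K.N ∧
      c (loV cp (b0 (K.a n) (c n))) = c n ∧
      K.t (loV cp (b0 (K.a n) (c n))) - K.t (hi K cp n) < 4 / Q * len K cp n
    have ht := (hctr n hnF).2.1 (cp n) (hself n hnF) hlt
    rw [← hi_eq, ← lo_eq] at ht
    rw [hlo] at ht ⊢
    refine ⟨(a8 _ (by omega)).1 (by rw [b4, hcpm]; exact hlt), by omega, ?_, ht⟩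
    rw [href _ _ (by omega) hm b4, hcm]
  · -- right of the centre
    obtain ⟨K', hN', hx', hy', hab⟩ := h5 ι K
    have hgp' : GP K'.x K'.y := by
      intro i j l hij hil hjl
      rw [hx', hy', hy', hy']
      intro h
      exact hgp i j l hij hil hjl (by linarith)
    have hc' := rotCells hc hN' hB
    have hcp' := rotCells hcp hN' hBG1
    have hN0 : 1 ≤ K.N := le_trans hBG1 hBG
    refine h4 ι K' (by rw [hx']; exact hx) hgp' hnm0 Q hQη (by rw [hN']; exact hQN) B G hB hG'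
      (by rw [hN']; exact hBG) _ _ hc' hcp' ?_
      ((F.filter (fun n => b0 (K.a n) (c n) < cp n)).image (fun n => K.N - 1 - n)) ?_ ?_
      (fun i z => K.N - 1 - hiV K cp (b0 i (B - 1 - z))) ?_
    · intro n m hn hm h
      rw [hN'] at hn hm
      rw [rc_eq_iff hc hn hm]
      exact href _ _ (by omega) (by omega) ((rc_eq_iff hcp hn hm).1 h)
    · intro n hn
      obtain ⟨m, -, rfl⟩ := mem_image.1 hn
      rw [hN', mem_range]
      omega
    · rw [hN', card_image_of_injOn]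
      · exact hbig _ hcase
      · intro n hn m hm h
        have h1 := mem_range.1 (hFN (mem_filter.1 hn).1)
        have h2 := mem_range.1 (hFN (mem_filter.1 hm).1)
        simp only at h
        omega
    · intro n' hn'
      obtain ⟨n, hn, rfl⟩ := mem_image.1 hn'
      obtain ⟨hnF, hlt⟩ := mem_filter.1 hn
      have hnN := mem_range.1 (hFN hnF)
      obtain ⟨m, hm, hcm, hcpm⟩ := hrep n hnF
      obtain ⟨a1, a2, a3, a4, a5, a6, a7, a8, -⟩ := h6 ι K _ cp hcp n hnN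
      obtain ⟨b1, b2, b3, b4, b5, -, b7, -, -⟩ := h6 ι K _ cp hcp m hm
      have hhi : hiV K cp (b0 (K.a n) (c n)) = hi K cp m := by rw [← hcpm]; rfl
      obtain ⟨r1, r2⟩ := rotLoHi h6 hcp hN' hBG1 hnN
      have e : K.N - 1 - (K.N - 1 - n) = n := by omega
      have ea : K'.a (K.N - 1 - n) = K.a n := by rw [(hab _ (by omega)).1, e]
      have ec : B - 1 - rc K.N B c (K.N - 1 - n) = c n := by
        have := hc.lt n hnN
        unfold rc
        rw [e]
        omega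
      have eb : K.N - 1 - hiV K cp (b0 (K'.a (K.N - 1 - n)) (B - 1 - rc K.N B c (K.N - 1 - n))) =
          K.N - 1 - hi K cp m := by rw [ea, ec, hhi]
      show hi K' (rc K.N (B * G) cp) (K.N - 1 - n) <
          K.N - 1 - hiV K cp (b0 (K'.a (K.N - 1 - n)) (B - 1 - rc K.N B c (K.N - 1 - n))) ∧
        K.N - 1 - hiV K cp (b0 (K'.a (K.N - 1 - n)) (B - 1 - rc K.N B c (K.N - 1 - n))) < K'.N ∧
        rc K.N B c (K.N - 1 - hiV K cp
          (b0 (K'.a (K.N - 1 - n)) (B - 1 - rc K.N B c (K.N - 1 - n)))) =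
          rc K.N B c (K.N - 1 - n) ∧
        K'.t (K.N - 1 - hiV K cp
          (b0 (K'.a (K.N - 1 - n)) (B - 1 - rc K.N B c (K.N - 1 - n)))) -
          K'.t (hi K' (rc K.N (B * G) cp) (K.N - 1 - n)) <
          4 / Q * len K' (rc K.N (B * G) cp) (K.N - 1 - n)
      rw [eb]
      unfold len
      rw [r1, r2, hN']
      have hlt2 : hi K cp m < lo cp n :=
        (a7 _ b3).1 (by rw [b5, hcpm]; exact hlt)
      have ht := (hctr n hnF).2.2 (cp n) (hself n hnF) hlt
      rw [← hi_eq, ← lo_eq, hhi] at ht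
      refine ⟨by omega, by omega, ?_, ?_⟩
      · rw [rc_eq_iff hc (by omega) (by omega), e]
        have e3 : K.N - 1 - (K.N - 1 - hi K cp m) = hi K cp m := by omega
        rw [e3, href _ _ b3 hm b5, hcm]
      · rw [(hab (K.N - 1 - hi K cp m) (by omega)).2.2, (hab (K.N - 1 - lo cp n) (by omega)).2.2,
          (hab (K.N - 1 - hi K cp n) (by omega)).2.2]
        have e3 : K.N - 1 - (K.N - 1 - hi K cp m) = hi K cp m := by omega
        have e4 : K.N - 1 - (K.N - 1 - lo cp n) = lo cp n := by omega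
        have e5 : K.N - 1 - (K.N - 1 - hi K cp n) = hi K cp n := by omega
        rw [e3, e4, e5]
        have e6 : 4 / (Q : ℝ) * (-K.t (lo cp n) - -K.t (hi K cp n)) =
          4 / Q * (K.t (hi K cp n) - K.t (lo cp n)) := by ring
        rw [e6]
        linarith

end Pool.Agent.Work.MP_e17eac_co.MX
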