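import Pool.Agent.Work.MP_e17eac_co.Bd.B14

/-!
# Item MX GPL: no dense set of edges is super-separated to the left of centres
-/

namespace Pool.Agent.Work.MP_e17eac_co.MX

open Finset
open Pool.Agent.Work.MP_e17eac_co.DH
open Pool.Agent.Work.MP_e17eac_co.DH.XSWEEP (GP)

namespace XGPL

/-- Comparing quarter powers. -/
theorem quarter (n M M' X : ℝ) (hn : 0 < n) (hM : 0 ≤ M) (hM' : 0 ≤ M') (_hX : 0 ≤ X)
    (h : n * M ^ ((1 : ℝ) / 4) ≤ X * (n * M' ^ ((1 : ℝ) / 4))) : M ≤ X ^ 4 * M' := by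
  have h1 : M ^ ((1 : ℝ) / 4) ≤ X * M' ^ ((1 : ℝ) / 4) := by
    have h2 : n * M ^ ((1 : ℝ) / 4) ≤ n * (X * M' ^ ((1 : ℝ) / 4)) := by
      calc n * M ^ ((1 : ℝ) / 4) ≤ X * (n * M' ^ ((1 : ℝ) / 4)) := h
        _ = n * (X * M' ^ ((1 : ℝ) / 4)) := by ring
    exact le_of_mul_le_mul_left h2 hn
  have h3 : (M ^ ((1 : ℝ) / 4)) ^ 4 ≤ (X * M' ^ ((1 : ℝ) / 4)) ^ 4 :=
    pow_le_pow_left₀ (Real.rpow_nonneg hM _) h1 4
  have e1 : (M ^ ((1 : ℝ) / 4)) ^ 4 = M := by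
    rw [← Real.rpow_natCast, ← Real.rpow_mul hM]; norm_num
  have e2 : (M' ^ ((1 : ℝ) / 4)) ^ 4 = M' := by
    rw [← Real.rpow_natCast, ← Real.rpow_mul hM']; norm_num
  rw [mul_pow, e1, e2] at h3
  exact h3

/-- The number of halvings. -/
theorem numD (C : ℝ) (e : ℕ) : ∃ Q0 : ℕ, ∀ Q : ℕ, Q0 ≤ Q → ∃ D1 : ℕ,
    C * (Q : ℝ) ^ e < 2 ^ D1 ∧ 2 ^ D1 ≤ Q ^ (e + 1) ∧ 8 * D1 ≤ Q := by
  have h1 : Filter.Tendsto (fun n : ℕ => (n : ℝ) ^ (8 * (e + 1)) / (2 : ℝ) ^ n) Filter.atTop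
      (nhds 0) := tendsto_pow_const_div_const_pow_of_one_lt _ (by norm_num)
  have h2 : ∀ᶠ n : ℕ in Filter.atTop, (n : ℝ) ^ (8 * (e + 1)) / (2 : ℝ) ^ n < 1 :=
    h1.eventually (gt_mem_nhds (by norm_num))
  obtain ⟨Q1, hQ1⟩ := Filter.eventually_atTop.1 h2
  refine ⟨max Q1 (max 1 (2 * (⌈C⌉₊ + 1))), fun Q hQ => ?_⟩
  have hQa : Q1 ≤ Q := le_trans (le_max_left _ _) hQ
  have hQb : 1 ≤ Q := le_trans (le_trans (le_max_left _ _) (le_max_right _ _)) hQ
  have hQc : 2 * (⌈C⌉₊ + 1) ≤ Q := le_trans (le_trans (le_max_right _ _) (le_max_right _ _)) hQ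
  set X : ℕ := (⌈C⌉₊ + 1) * Q ^ e with hX
  have hXpos : X ≠ 0 := by
    rw [hX]; positivity
  refine ⟨Nat.log 2 X + 1, ?_, ?_, ?_⟩
  · have h3 : X < 2 ^ (Nat.log 2 X + 1) := Nat.lt_pow_succ_log_self (by norm_num) X
    have h4 : (X : ℝ) < 2 ^ (Nat.log 2 X + 1) := by exact_mod_cast h3
    refine lt_of_le_of_lt ?_ h4
    rw [hX]
    push_cast
    have h5 : C ≤ (⌈C⌉₊ : ℝ) + 1 := by
      have := Nat.le_ceil C
      linarith
    exact mul_le_mul_of_nonneg_right h5 (by positivity)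
  · have h3 : 2 ^ (Nat.log 2 X) ≤ X := Nat.pow_log_le_self 2 hXpos
    calc 2 ^ (Nat.log 2 X + 1) = 2 ^ (Nat.log 2 X) * 2 := by ring
      _ ≤ X * 2 := Nat.mul_le_mul_right _ h3
      _ = (2 * (⌈C⌉₊ + 1)) * Q ^ e := by rw [hX]; ring
      _ ≤ Q * Q ^ e := Nat.mul_le_mul_right _ hQc
      _ = Q ^ (e + 1) := by ring
  · have h3 : 2 ^ (Nat.log 2 X) ≤ X := Nat.pow_log_le_self 2 hXpos
    have h6 : 2 ^ (Nat.log 2 X + 1) ≤ Q ^ (e + 1) := by
      calc 2 ^ (Nat.log 2 X + 1) = 2 ^ (Nat.log 2 X) * 2 := by ring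
        _ ≤ X * 2 := Nat.mul_le_mul_right _ h3
        _ = (2 * (⌈C⌉₊ + 1)) * Q ^ e := by rw [hX]; ring
        _ ≤ Q * Q ^ e := Nat.mul_le_mul_right _ hQc
        _ = Q ^ (e + 1) := by ring
    have h7 : (Q : ℝ) ^ (8 * (e + 1)) < 2 ^ Q := by
      have h8 := hQ1 Q hQa
      rw [div_lt_one (by positivity)] at h8
      exact h8
    have h9 : Q ^ (8 * (e + 1)) < 2 ^ Q := by exact_mod_cast h7
    have h10 : 2 ^ (8 * (Nat.log 2 X + 1)) < 2 ^ Q := by
      calc 2 ^ (8 * (Nat.log 2 X + 1)) = (2 ^ (Nat.log 2 X + 1)) ^ 8 := by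
            rw [← pow_mul]; ring_nf
        _ ≤ (Q ^ (e + 1)) ^ 8 := Nat.pow_le_pow_left h6 8
        _ = Q ^ (8 * (e + 1)) := by rw [← pow_mul]; ring_nf
        _ < 2 ^ Q := h9
    exact le_of_lt ((Nat.pow_lt_pow_iff_right (by norm_num)).1 h10)

/-- `Q ≥ n ^ η` is large. -/
theorem numQ (η : ℝ) (hη : 0 < η) (Q0 : ℕ) : ∃ n0 : ℕ, ∀ n : ℕ, n0 ≤ n → ∀ Q : ℕ,
    (n : ℝ) ^ η ≤ Q → Q0 ≤ Q := by
  have h1 : Filter.Tendsto (fun n : ℕ => ((n : ℝ)) ^ η) Filter.atTop Filter.atTop :=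
    (tendsto_rpow_atTop hη).comp tendsto_natCast_atTop_atTop
  have h2 : ∀ᶠ n : ℕ in Filter.atTop, (Q0 : ℝ) ≤ (n : ℝ) ^ η :=
    h1.eventually (Filter.eventually_ge_atTop _)
  obtain ⟨n0, hn0⟩ := Filter.eventually_atTop.1 h2
  refine ⟨n0, fun n hn Q hQ => ?_⟩
  have h3 : (Q0 : ℝ) ≤ Q := le_trans (hn0 n hn) hQ
  exact_mod_cast h3

/-- Functions constant on the fibres of another one have a smaller image. -/
theorem im_le {α β : Type} [DecidableEq α] [DecidableEq β] (E : Finset ℕ) (f : ℕ → α) (g : ℕ → β)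
    (h : ∀ n ∈ E, ∀ m ∈ E, g n = g m → f n = f m) : (E.image f).card ≤ (E.image g).card := by
  classical
  have h1 : ∀ y ∈ E.image g, ∃ n ∈ E, g n = y := by
    intro y hy
    obtain ⟨n, hn, hny⟩ := mem_image.1 hy
    exact ⟨n, hn, hny⟩
  rcases E.eq_empty_or_nonempty with rfl | hE
  · simp
  obtain ⟨n1, hn1⟩ := hE
  let φ : β → α := fun y => if hy : y ∈ E.image g then f (h1 y hy).choose else f n1
  have h2 : E.image f ⊆ (E.image g).image φ := by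
    intro x hx
    obtain ⟨n, hn, rfl⟩ := mem_image.1 hx
    refine mem_image.2 ⟨g n, mem_image_of_mem _ hn, ?_⟩
    have h3 : g n ∈ E.image g := mem_image_of_mem _ hn
    have h4 : φ (g n) = f (h1 (g n) h3).choose := by
      simp only [φ]
      rw [dif_pos h3]
    rw [h4]
    exact h _ (h1 (g n) h3).choose_spec.1 _ hn (h1 (g n) h3).choose_spec.2
  exact le_trans (card_le_card h2) card_image_le

/-- The first halving that separates two edges of a cell. -/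
theorem sep (f : ℕ → ℕ → ℕ) (n m : ℕ) : ∀ D1 : ℕ, f 0 n = f 0 m → f D1 n ≠ f D1 m →
    ∃ a, a < D1 ∧ f a n = f a m ∧ f (a + 1) n ≠ f (a + 1) m := by
  intro D1
  induction D1 with
  | zero => intro h0 h1; exact absurd h0 h1
  | succ d ih =>
    intro h0 h1
    by_cases h : f d n = f d m
    · exact ⟨d, Nat.lt_succ_self d, h, h1⟩
    · obtain ⟨a, ha, h2, h3⟩ := ih h0 h
      exact ⟨a, Nat.lt_succ_of_lt ha, h2, h3⟩

variable {ι : Type} [Fintype ι] [DecidableEq ι]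

/-- The first index of the second half. -/
theorem mu_spec (h5 : StLoHi) (K : KSys ι) (MY MZ : ℕ) (Y Z : ℕ → ℕ)
    (hY : IsCells K MY Y) (hZ : IsCells K MZ Z)
    (hhalf : ∀ n m l, n < K.N → m < K.N → l < K.N → Y n = Y m → Y m = Y l →
      Z n = Z m ∨ Z m = Z l ∨ Z n = Z l) :
    ∃ μ : ℕ → ℕ, ∀ n h i, n ≤ h → h < i → i < K.N → Y n = Y i → Z h = Z n → Z n ≠ Z i →
      h < μ (Y n) ∧ μ (Y n) ≤ i ∧ Y (μ (Y n)) = Y n := by
  classical
  let P : ℕ → ℕ → Prop := fun y m => m < K.N ∧ Y m = y ∧ Z m ≠ Z (lo Y m)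
  let μ : ℕ → ℕ := fun y => if hP : ∃ m, P y m then Nat.find hP else 0
  refine ⟨μ, ?_⟩
  intro n h i hnh hhi hiN hYni hZhn hZni
  have hnN : n < K.N := by omega
  have hhN : h < K.N := by omega
  have hZle : ∀ p q, p ≤ q → q < K.N → Z p ≤ Z q := hZ.mono
  have hYn := h5 ι K MY Y hY n hnN
  have hYi := h5 ι K MY Y hY i hiN
  have hlo : ∀ m, Y m = Y n → lo Y m = lo Y n := by
    intro m hm
    unfold lo
    rw [hm]
  have hZlt : Z n < Z i := lt_of_le_of_ne (hZle n i (by omega) hiN) hZni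
  have hPi : P (Y n) i := by
    refine ⟨hiN, hYni.symm, ?_⟩
    rw [hlo i hYni.symm]
    have h1 : Z (lo Y n) ≤ Z n := hZle _ _ hYn.1 hnN
    omega
  have hex : ∃ m, P (Y n) m := ⟨i, hPi⟩
  have hμ : μ (Y n) = Nat.find hex := by
    simp only [μ]
    rw [dif_pos hex]
  have hs := Nat.find_spec hex
  have hle := Nat.find_min' hex hPi
  rw [← hμ] at hs hle
  obtain ⟨hs1, hs2, hs3⟩ := hs
  refine ⟨?_, hle, hs2⟩
  by_contra hcon
  push Not at hcon
  rw [hlo _ hs2] at hs3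
  have hloN : lo Y n < K.N := lt_of_le_of_lt hYn.1 hnN
  have hloY : Y (lo Y n) = Y n := hYn.2.2.2.1
  have h1 : Z (lo Y n) ≤ Z n := hZle _ _ hYn.1 hnN
  have h2 : Z (μ (Y n)) ≤ Z h := hZle _ _ hcon hhN
  rcases hhalf (lo Y n) (μ (Y n)) i hloN hs1 hiN (hloY.trans hs2.symm) (hs2.trans hYni) with
    h3 | h3 | h3
  · exact hs3 h3.symm
  · omega
  · omega

/-- The children that contain the boundary of two halves. -/
theorem gam_aux (h5 : StLoHi) (K : KSys ι) (MY MZ Mcp : ℕ) (Y Z cp : ℕ → ℕ)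
    (hYc : IsCells K MY Y) (hZ : IsCells K MZ Z) (hcp : IsCells K Mcp cp)
    (hhalf : ∀ n m l, n < K.N → m < K.N → l < K.N → Y n = Y m → Y m = Y l →
      Z n = Z m ∨ Z m = Z l ∨ Z n = Z l)
    (n n' i : ℕ) (hle : n ≤ n') (hn' : n' ≤ i) (hi1 : hi K cp n < i) (hiN : i < K.N)
    (hY : Y n = Y i) (hZ1 : Z n ≠ Z i) (hZ2 : Z n' ≠ Z i)
    (hZ3 : Z (hi K cp n) ≠ Z n) : cp n = cp n' := by
  have hnN : n < K.N := by omega
  have hn'N : n' < K.N := by omega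
  have hcn := h5 ι K Mcp cp hcp n hnN
  by_contra hne
  have hlt : cp n < cp n' := lt_of_le_of_ne (hcp.mono n n' hle hn'N) hne
  have hhi : hi K cp n < n' := (hcn.2.2.2.2.2.2.2.1 n' hn'N).1 hlt
  have hhN : hi K cp n < K.N := hcn.2.2.1
  have hnh : n ≤ hi K cp n := hcn.2.1
  have hYh : Y n = Y (hi K cp n) := by
    have e1 := hYc.mono n (hi K cp n) hnh hhN
    have e2 := hYc.mono (hi K cp n) i (by omega) hiN
    omega
  have h1 : Z (hi K cp n) = Z i := by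
    rcases hhalf n (hi K cp n) i hnN hhN hiN hYh (hYh.symm.trans hY) with h | h | h
    · exact absurd h.symm hZ3
    · exact h
    · exact absurd h hZ1
  have e1 := hZ.mono (hi K cp n) n' (by omega) hn'N
  have e2 := hZ.mono n' i hn' hiN
  exact hZ2 (by omega)

theorem gam (h5 : StLoHi) (K : KSys ι) (MY MZ Mcp : ℕ) (Y Z cp : ℕ → ℕ)
    (hYc : IsCells K MY Y) (hZ : IsCells K MZ Z) (hcp : IsCells K Mcp cp)
    (hhalf : ∀ n m l, n < K.N → m < K.N → l < K.N → Y n = Y m → Y m = Y l →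
      Z n = Z m ∨ Z m = Z l ∨ Z n = Z l)
    (n n' i : ℕ) (hn : n ≤ i) (hn' : n' ≤ i) (hi1 : hi K cp n < i) (hi2 : hi K cp n' < i)
    (hiN : i < K.N)
    (hY : Y n = Y i) (hY' : Y n' = Y i) (hZ1 : Z n ≠ Z i) (hZ2 : Z n' ≠ Z i)
    (hZ3 : Z (hi K cp n) ≠ Z n) (hZ4 : Z (hi K cp n') ≠ Z n') : cp n = cp n' := by
  rcases le_total n n' with h | h
  · exact gam_aux h5 K MY MZ Mcp Y Z cp hYc hZ hcp hhalf n n' i h hn' hi1 hiN hY hZ1 hZ2 hZ3
  · exact (gam_aux h5 K MY MZ Mcp Y Z cp hYc hZ hcp hhalf n' n i h hn hi2 hiN hY' hZ2 hZ1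
      hZ4).symm

end XGPL

/-- **Item GPL.** -/
theorem I_GPL (h1 : StUp) (h2 : StLow) (h3 : StHalve) (h4 : StScl) (h5 : StLoHi) : StGPL := by
  classical
  obtain ⟨C1, hC1, hUp⟩ := h1
  obtain ⟨C2, hC2, hLow⟩ := h2
  obtain ⟨C4, hScl⟩ := h4
  refine ⟨300 + 12 * C4, fun η D hη => ?_⟩
  obtain ⟨n1, hn1⟩ := hScl η (D + 1) hη
  obtain ⟨Q1, hQ1⟩ := XGPL.numD ((C1 * C2) ^ 4) (36 * (D + 2))
  obtain ⟨n2, hn2⟩ := XGPL.numQ η hη (max Q1 (max 8 ⌈(C1 * C2) ^ 4⌉₊))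
  refine ⟨max n1 (max n2 1), ?_⟩
  intro ι _ _ K hinj hGP hn Q hQη hQN B G hB hG hBG c cp hc hcp href E hE hEN b hb
  have hnn1 : n1 ≤ Fintype.card ι := le_trans (le_max_left _ _) hn
  have hnn2 : n2 ≤ Fintype.card ι := le_trans (le_trans (le_max_left _ _) (le_max_right _ _)) hn
  have hnn3 : 1 ≤ Fintype.card ι := le_trans (le_trans (le_max_right _ _) (le_max_right _ _)) hn
  have hQall := hn2 _ hnn2 Q hQη
  have hQQ1 : Q1 ≤ Q := le_trans (le_max_left _ _) hQall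
  have hQ8 : 8 ≤ Q := le_trans (le_trans (le_max_left _ _) (le_max_right _ _)) hQall
  have hQCn : ⌈(C1 * C2) ^ 4⌉₊ ≤ Q :=
    le_trans (le_trans (le_max_right _ _) (le_max_right _ _)) hQall
  have hQC : (C1 * C2) ^ 4 ≤ (Q : ℝ) := Nat.ceil_le.1 hQCn
  have hQpos : (0 : ℝ) < Q := by
    have : 0 < Q := by omega
    exact_mod_cast this
  have hQ1' : (1 : ℝ) ≤ Q := by
    have : 1 ≤ Q := by omega
    exact_mod_cast this
  have hn0 : (0 : ℝ) < Fintype.card ι := by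
    have : 0 < Fintype.card ι := by omega
    exact_mod_cast this
  obtain ⟨D1, hD1a, hD1b, hD1c⟩ := hQ1 Q hQQ1
  obtain ⟨Y, hY0, hY⟩ := h3 ι K B c (by omega) hc
  have hYc : ∀ a, IsCells K (B * 2 ^ a) (Y a) := fun a => (hY a).1
  have hhalf : ∀ a, ∀ n m l, n < K.N → m < K.N → l < K.N → Y a n = Y a m → Y a m = Y a l →
      Y (a + 1) n = Y (a + 1) m ∨ Y (a + 1) m = Y (a + 1) l ∨ Y (a + 1) n = Y (a + 1) l :=
    fun a => (hY a).2.2
  have hGpos : 1 ≤ G := by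
    refine le_trans ?_ hG
    exact Nat.one_le_pow _ _ (by omega)
  have hNpos : 1 ≤ K.N := by
    refine le_trans ?_ hBG
    exact Nat.mul_pos (by omega) hGpos
  have hBN : B ≤ K.N := le_trans (Nat.le_mul_of_pos_right _ hGpos) hBG
  have hEpos : 1 ≤ E.card := by
    rcases Nat.eq_zero_or_pos E.card with h | h
    · rw [h] at hEN; omega
    · exact h
  have hBpos : (0 : ℝ) < B := by
    have : 0 < B := by omega
    exact_mod_cast this
  have hEr : ∀ n ∈ E, n < K.N := fun n hn => mem_range.1 (hE hn)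
  -- upper bounds
  have up : ∀ F ⊆ range K.N, (im F (fun n => (c n, K.a n)) : ℝ) ≤
      C1 * (Fintype.card ι * (B : ℝ) ^ ((1 : ℝ) / 4)) := by
    intro F hF
    have := (hUp ι K hinj hGP B c hc F hF).1 false
    calc (im F (fun n => (c n, K.a n)) : ℝ) ≤ C1 * Fintype.card ι * (B : ℝ) ^ ((1 : ℝ) / 4) := this
      _ = _ := by ring
  -- lower bounds and comparison
  have low : ∀ (M : ℕ) (f : ℕ → ℕ), 1 ≤ M → M ≤ K.N → IsCells K M f → ∀ F ⊆ range K.N, ∀ d : ℕ,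
      1 ≤ d → K.N ≤ Q ^ d * F.card → ∀ (X : ℝ) (M' : ℕ), 0 ≤ X →
      (im F (fun n => (f n, K.a n)) : ℝ) ≤ X * (Fintype.card ι * (M' : ℝ) ^ ((1 : ℝ) / 4)) →
      (M : ℝ) ≤ (C2 * X) ^ 4 * (Q : ℝ) ^ (36 * d) * M' := by
    intro M f hM1 hMN hf F hF d hd hFN X M' hX him
    have hH1 : (1 : ℝ) ≤ (Q : ℝ) ^ d := one_le_pow₀ hQ1'
    have hH2 : (K.N : ℝ) ≤ (Q : ℝ) ^ d * F.card := by exact_mod_cast hFN
    have hH3 : (Fintype.card ι : ℝ) ^ ((4 : ℝ) / 3) ≤ (Q : ℝ) ^ d * K.N := by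
      refine le_trans hQN (mul_le_mul_of_nonneg_right ?_ (Nat.cast_nonneg _))
      calc (Q : ℝ) = (Q : ℝ) ^ 1 := (pow_one _).symm
        _ ≤ (Q : ℝ) ^ d := pow_le_pow_right₀ hQ1' hd
    have hl := (hLow ι K hinj hGP M f hM1 hMN hf F hF ((Q : ℝ) ^ d) hH1 hH2 hH3).1 false
    have hl' : (Fintype.card ι : ℝ) * (M : ℝ) ^ ((1 : ℝ) / 4) ≤
        C2 * ((Q : ℝ) ^ d) ^ 9 * (im F (fun n => (f n, K.a n)) : ℝ) := hl
    have hl2 : (Fintype.card ι : ℝ) * (M : ℝ) ^ ((1 : ℝ) / 4) ≤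
        (C2 * ((Q : ℝ) ^ d) ^ 9 * X) * (Fintype.card ι * (M' : ℝ) ^ ((1 : ℝ) / 4)) := by
      calc (Fintype.card ι : ℝ) * (M : ℝ) ^ ((1 : ℝ) / 4) ≤
          C2 * ((Q : ℝ) ^ d) ^ 9 * (im F (fun n => (f n, K.a n)) : ℝ) := hl'
        _ ≤ C2 * ((Q : ℝ) ^ d) ^ 9 * (X * (Fintype.card ι * (M' : ℝ) ^ ((1 : ℝ) / 4))) :=
            mul_le_mul_of_nonneg_left him (by positivity)
        _ = _ := by ring
    have hq := XGPL.quarter (Fintype.card ι) M M' (C2 * ((Q : ℝ) ^ d) ^ 9 * X) hn0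
      (Nat.cast_nonneg _) (Nat.cast_nonneg _) (by positivity) hl2
    calc (M : ℝ) ≤ (C2 * ((Q : ℝ) ^ d) ^ 9 * X) ^ 4 * M' := hq
      _ = (C2 * X) ^ 4 * (Q : ℝ) ^ (36 * d) * M' := by
          rw [show 36 * d = d * 9 * 4 by ring, pow_mul, pow_mul]; ring
  -- bound on the number of halvings
  have hpowG : ∀ e : ℕ, e < (300 + 12 * C4) * (D + 1) → (Q : ℝ) ^ e < G := by
    intro e he
    have e1 : Q ^ e < Q ^ ((300 + 12 * C4) * (D + 1)) :=
      Nat.pow_lt_pow_right (by omega) he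
    have e2 : Q ^ e < G := lt_of_lt_of_le e1 hG
    exact_mod_cast e2
  have hD1G : 2 ^ D1 ≤ G := by
    have e1 := hpowG (36 * (D + 2) + 1) (by nlinarith)
    have e2 : Q ^ (36 * (D + 2) + 1) < G := by exact_mod_cast e1
    omega
  have hD1N : B * 2 ^ D1 ≤ K.N := le_trans (Nat.mul_le_mul_left _ hD1G) hBG
  have hC1' : (1 : ℝ) ≤ (C1 * C2) ^ 4 := one_le_pow₀ (by nlinarith)
  -- the set `α`
  set i0 : ℕ → ℕ := fun n => b (K.a n) (c n) with hi0
  have hhi : ∀ n ∈ E, n ≤ hi K cp n := fun n hn => (h5 ι K _ cp hcp n (hEr n hn)).2.1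
  have hi0hi : ∀ n ∈ E, hi K cp n < i0 n := fun n hn => (hb n hn).1
  have hi0N : ∀ n ∈ E, i0 n < K.N := fun n hn => (hb n hn).2.1
  have hi0c : ∀ n ∈ E, c (i0 n) = c n := fun n hn => (hb n hn).2.2.1
  have hi0t : ∀ n ∈ E, K.t (i0 n) - K.t (hi K cp n) < 4 / Q * len K cp n :=
    fun n hn => (hb n hn).2.2.2
  set α : Finset ℕ := E.filter (fun n => Y D1 n = Y D1 (i0 n)) with hα
  have hαE : α ⊆ E := filter_subset _ _
  have hαcard : 4 * α.card < E.card := by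
    by_contra hcon
    push Not at hcon
    have e1 : K.N ≤ Q ^ (D + 1) * α.card := by
      calc K.N ≤ Q ^ D * E.card := hEN
        _ ≤ Q ^ D * (4 * α.card) := Nat.mul_le_mul_left _ hcon
        _ ≤ Q ^ D * (Q * α.card) :=
            Nat.mul_le_mul_left _ (Nat.mul_le_mul_right _ (by omega))
        _ = Q ^ (D + 1) * α.card := by ring
    have e2 : (im α (fun n => (Y D1 n, K.a n)) : ℝ) ≤
        C1 * (Fintype.card ι * (B : ℝ) ^ ((1 : ℝ) / 4)) := by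
      refine le_trans ?_ (up α (hαE.trans hE))
      have e3 : im α (fun n => (Y D1 n, K.a n)) ≤ im α (fun n => (c n, K.a n)) := by
        apply XGPL.im_le
        intro n hn m hm hnm
        have f1 : c n = c m := congrArg Prod.fst hnm
        have f2 : K.a n = K.a m := congrArg Prod.snd hnm
        have f3 : i0 n = i0 m := by simp only [hi0]; rw [f1, f2]
        have f4 := (mem_filter.1 hn).2
        have f5 := (mem_filter.1 hm).2
        rw [f4, f5, f3, f2]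
      exact_mod_cast e3
    have e3 := low (B * 2 ^ D1) (Y D1) (Nat.mul_pos (by omega) (by positivity)) hD1N (hYc D1) α
      (hαE.trans hE) (D + 1) (by omega) e1 C1 B (by linarith) e2
    push_cast at e3
    have e4 : (2 : ℝ) ^ D1 ≤ (C2 * C1) ^ 4 * (Q : ℝ) ^ (36 * (D + 1)) := by
      have e5 : (2 : ℝ) ^ D1 * B ≤ (C2 * C1) ^ 4 * (Q : ℝ) ^ (36 * (D + 1)) * B := by
        linarith
      exact le_of_mul_le_mul_right e5 hBpos
    have e5 : (C1 * C2) ^ 4 * (Q : ℝ) ^ (36 * (D + 1)) ≤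
        (C1 * C2) ^ 4 * (Q : ℝ) ^ (36 * (D + 2)) :=
      mul_le_mul_of_nonneg_left (pow_le_pow_right₀ hQ1' (by omega)) (by positivity)
    rw [mul_comm C2 C1] at e4
    linarith
  -- the index of the separating halving
  have hix : ∀ n, ∃ a, n ∈ E \ α → (a < D1 ∧ Y a n = Y a (i0 n) ∧
      Y (a + 1) n ≠ Y (a + 1) (i0 n)) := by
    intro n
    by_cases hn : n ∈ E \ α
    · obtain ⟨hnE, hnα⟩ := mem_sdiff.1 hn
      have e1 : Y D1 n ≠ Y D1 (i0 n) := by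
        intro h
        exact hnα (mem_filter.2 ⟨hnE, h⟩)
      have e2 : Y 0 n = Y 0 (i0 n) := by
        rw [hY0]; exact (hi0c n hnE).symm
      obtain ⟨a, ha, h2, h3⟩ := XGPL.sep Y n (i0 n) D1 e2 e1
      exact ⟨a, fun _ => ⟨ha, h2, h3⟩⟩
    · exact ⟨0, fun h => absurd h hn⟩
  choose ix hix using hix
  set γa : ℕ → Finset ℕ := fun a => (E \ α).filter
    (fun n => ix n = a ∧ Y (a + 1) (hi K cp n) ≠ Y (a + 1) n) with hγa
  set Fa : ℕ → Finset ℕ := fun a => (E \ α).filter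
    (fun n => ix n = a ∧ Y (a + 1) (hi K cp n) = Y (a + 1) n) with hFa
  set γ : Finset ℕ := (range D1).biUnion γa with hγ
  have hγaE : ∀ a, γa a ⊆ E := fun a => (filter_subset _ _).trans sdiff_subset
  have hFaE : ∀ a, Fa a ⊆ E := fun a => (filter_subset _ _).trans sdiff_subset
  have hγE : γ ⊆ E := biUnion_subset.2 (fun a _ => hγaE a)
  have hQD1 : D1 ≤ Q := by omega
  have hγcard : 4 * γ.card < E.card := by
    by_contra hcon
    push Not at hcon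
    have e1 : K.N ≤ Q ^ (D + 1) * γ.card := by
      calc K.N ≤ Q ^ D * E.card := hEN
        _ ≤ Q ^ D * (4 * γ.card) := Nat.mul_le_mul_left _ hcon
        _ ≤ Q ^ D * (Q * γ.card) :=
            Nat.mul_le_mul_left _ (Nat.mul_le_mul_right _ (by omega))
        _ = Q ^ (D + 1) * γ.card := by ring
    have e2 : (im γ (fun n => (cp n, K.a n)) : ℝ) ≤
        (Q * C1) * (Fintype.card ι * (B : ℝ) ^ ((1 : ℝ) / 4)) := by
      have e3 : im γ (fun n => (cp n, K.a n)) ≤ ∑ a ∈ range D1, im (γa a)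
          (fun n => (c n, K.a n)) := by
        have e4 : im γ (fun n => (cp n, K.a n)) ≤ ∑ a ∈ range D1, im (γa a)
            (fun n => (cp n, K.a n)) := by
          unfold im
          rw [hγ, biUnion_image]
          exact card_biUnion_le
        refine le_trans e4 (sum_le_sum fun a _ => ?_)
        apply XGPL.im_le
        intro n hn m hm hnm
        have f1 : c n = c m := congrArg Prod.fst hnm
        have f2 : K.a n = K.a m := congrArg Prod.snd hnm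
        have f3 : i0 m = i0 n := by simp only [hi0]; rw [f1, f2]
        obtain ⟨g1, g2, g3⟩ := mem_filter.1 hn
        obtain ⟨k1, k2, k3⟩ := mem_filter.1 hm
        have hnE := (mem_sdiff.1 g1).1
        have hmE := (mem_sdiff.1 k1).1
        obtain ⟨-, g4, g5⟩ := hix n g1
        obtain ⟨-, k4, k5⟩ := hix m k1
        rw [g2] at g4 g5
        rw [k2] at k4 k5
        have j1 := hhi n hnE
        have j2 := hi0hi n hnE
        have j3 := hi0N n hnE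
        have l1 := hhi m hmE
        have l2 := hi0hi m hmE
        have l3 := hi0N m hmE
        rw [f3] at k4 k5 l2 l3
        have := XGPL.gam h5 K _ _ _ (Y a) (Y (a + 1)) cp (hYc a) (hYc (a + 1)) hcp (hhalf a)
          n m (i0 n) (by omega) (by omega) j2 l2 j3 g4 k4 g5 k5 g3 k3
        rw [this, f2]
      have e4 : (∑ a ∈ range D1, im (γa a) (fun n => (c n, K.a n)) : ℝ) ≤
          ∑ _a ∈ range D1, C1 * (Fintype.card ι * (B : ℝ) ^ ((1 : ℝ) / 4)) :=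
        sum_le_sum fun a _ => up (γa a) ((hγaE a).trans hE)
      rw [sum_const, card_range, nsmul_eq_mul] at e4
      have e5 : (im γ (fun n => (cp n, K.a n)) : ℝ) ≤
          ∑ a ∈ range D1, (im (γa a) (fun n => (c n, K.a n)) : ℝ) := by exact_mod_cast e3
      have e6 : (D1 : ℝ) ≤ Q := by exact_mod_cast hQD1
      calc (im γ (fun n => (cp n, K.a n)) : ℝ) ≤
            (D1 : ℝ) * (C1 * (Fintype.card ι * (B : ℝ) ^ ((1 : ℝ) / 4))) := le_trans e5 e4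
        _ ≤ Q * (C1 * (Fintype.card ι * (B : ℝ) ^ ((1 : ℝ) / 4))) :=
            mul_le_mul_of_nonneg_right e6 (by positivity)
        _ = _ := by ring
    have e3 := low (B * G) cp (Nat.mul_pos (by omega) hGpos) hBG hcp γ
      (hγE.trans hE) (D + 1) (by omega) e1 (Q * C1) B (by positivity) e2
    push_cast at e3
    have e4 : (G : ℝ) ≤ (C2 * (Q * C1)) ^ 4 * (Q : ℝ) ^ (36 * (D + 1)) := by
      have e5 : (G : ℝ) * B ≤ (C2 * (Q * C1)) ^ 4 * (Q : ℝ) ^ (36 * (D + 1)) * B := by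
        linarith
      exact le_of_mul_le_mul_right e5 hBpos
    have e5 : (C2 * (Q * C1)) ^ 4 * (Q : ℝ) ^ (36 * (D + 1)) ≤ (Q : ℝ) ^ (36 * (D + 1) + 5) := by
      calc (C2 * (Q * C1)) ^ 4 * (Q : ℝ) ^ (36 * (D + 1))
          = (C1 * C2) ^ 4 * ((Q : ℝ) ^ 4 * (Q : ℝ) ^ (36 * (D + 1))) := by ring
        _ ≤ Q * ((Q : ℝ) ^ 4 * (Q : ℝ) ^ (36 * (D + 1))) :=
            mul_le_mul_of_nonneg_right hQC (by positivity)
        _ = (Q : ℝ) ^ (36 * (D + 1) + 5) := by ring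
    have e6 := hpowG (36 * (D + 1) + 5) (by nlinarith)
    linarith
  -- one of the sets `F a` is large
  have hsum : E.card < 2 * ∑ a ∈ range D1, (Fa a).card := by
    have e1 : E ⊆ α ∪ γ ∪ (range D1).biUnion Fa := by
      intro n hn
      by_cases hnα : n ∈ α
      · exact mem_union_left _ (mem_union_left _ hnα)
      have hn' : n ∈ E \ α := mem_sdiff.2 ⟨hn, hnα⟩
      obtain ⟨g1, -, -⟩ := hix n hn'
      by_cases hh : Y (ix n + 1) (hi K cp n) = Y (ix n + 1) n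
      · refine mem_union_right _ (mem_biUnion.2 ⟨ix n, mem_range.2 g1, ?_⟩)
        exact mem_filter.2 ⟨hn', rfl, hh⟩
      · refine mem_union_left _ (mem_union_right _ (mem_biUnion.2 ⟨ix n, mem_range.2 g1, ?_⟩))
        exact mem_filter.2 ⟨hn', rfl, hh⟩
    have e2 := card_le_card e1
    have e3 : (α ∪ γ ∪ (range D1).biUnion Fa).card ≤
        α.card + γ.card + ((range D1).biUnion Fa).card :=
      le_trans (card_union_le _ _) (Nat.add_le_add_right (card_union_le _ _) _)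
    have e4 : ((range D1).biUnion Fa).card ≤ ∑ a ∈ range D1, (Fa a).card := card_biUnion_le
    omega
  obtain ⟨a, ha, hFacard⟩ : ∃ a, a < D1 ∧ E.card ≤ Q * (Fa a).card := by
    by_contra hcon
    push Not at hcon
    have e1 : ∀ a ∈ range D1, (Fa a).card * Q ≤ E.card := by
      intro a ha
      have := hcon a (mem_range.1 ha)
      rw [mul_comm] at this
      omega
    have e2 : (∑ a ∈ range D1, (Fa a).card) * Q ≤ D1 * E.card := by
      rw [sum_mul]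
      calc ∑ a ∈ range D1, (Fa a).card * Q ≤ ∑ _a ∈ range D1, E.card := sum_le_sum e1
        _ = D1 * E.card := by rw [sum_const, card_range, smul_eq_mul]
    have e3 : E.card * Q < 2 * (∑ a ∈ range D1, (Fa a).card) * Q :=
      Nat.mul_lt_mul_of_pos_right hsum (by omega)
    have e4 : 8 * D1 * E.card ≤ Q * E.card := Nat.mul_le_mul_right _ hD1c
    nlinarith
  -- the centres
  obtain ⟨μ, hμ⟩ := XGPL.mu_spec h5 K _ _ (Y a) (Y (a + 1)) (hYc a) (hYc (a + 1)) (hhalf a)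
  have hFN : K.N ≤ Q ^ (D + 1) * (Fa a).card := by
    calc K.N ≤ Q ^ D * E.card := hEN
      _ ≤ Q ^ D * (Q * (Fa a).card) := Nat.mul_le_mul_left _ hFacard
      _ = Q ^ (D + 1) * (Fa a).card := by ring
  obtain ⟨F', hF'F, hF'card, hF'im⟩ := hn1 ι K hinj hGP hnn1 Q hQη hQN (B * 2 ^ a) (B * G) (Y a) cp
    (Nat.mul_pos (by omega) (by positivity)) (hYc a) hcp (Fa a) ((hFaE a).trans hE) hFN μ (by
      intro n hn
      obtain ⟨g1, g2, g3⟩ := mem_filter.1 hn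
      have hnE := (mem_sdiff.1 g1).1
      obtain ⟨-, g4, g5⟩ := hix n g1
      rw [g2] at g4 g5
      obtain ⟨k1, k2, k3⟩ := hμ n (hi K cp n) (i0 n) (hhi n hnE) (hi0hi n hnE) (hi0N n hnE)
        g4 g3 g5
      refine ⟨k1, lt_of_le_of_lt k2 (hi0N n hnE), k3, ?_⟩
      refine lt_of_le_of_lt ?_ (hi0t n hnE)
      have : K.t (μ (Y a n)) ≤ K.t (i0 n) := by
        rcases Nat.lt_or_ge (μ (Y a n)) (i0 n) with h | h
        · exact (K.t_lt _ _ h (hi0N n hnE)).le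
        · have : μ (Y a n) = i0 n := le_antisymm k2 h
          rw [this]
      linarith)
  have hF'N : K.N ≤ Q ^ (D + 2) * F'.card := by
    calc K.N ≤ Q ^ (D + 1) * (Fa a).card := hFN
      _ ≤ Q ^ (D + 1) * (2 * F'.card) := Nat.mul_le_mul_left _ hF'card
      _ ≤ Q ^ (D + 1) * (Q * F'.card) :=
          Nat.mul_le_mul_left _ (Nat.mul_le_mul_right _ (by omega))
      _ = Q ^ (D + 2) * F'.card := by ring
  have hlast := low (B * G) cp (Nat.mul_pos (by omega) hGpos) hBG hcp F'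
      ((hF'F.trans (hFaE a)).trans hE) (D + 2) (by omega) hF'N
      ((Q : ℝ) ^ (C4 * (D + 1 + 1))) (B * 2 ^ a) (by positivity) (by
        calc (im F' (fun n => (cp n, K.a n)) : ℝ) ≤ (Q : ℝ) ^ (C4 * (D + 1 + 1)) *
              Fintype.card ι * ((B * 2 ^ a : ℕ) : ℝ) ^ ((1 : ℝ) / 4) := hF'im
          _ = _ := by ring)
  push_cast at hlast
  have e4 : (G : ℝ) ≤ (C2 * (Q : ℝ) ^ (C4 * (D + 1 + 1))) ^ 4 * (Q : ℝ) ^ (36 * (D + 2)) *
      2 ^ a := by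
    have e5 : (G : ℝ) * B ≤ (C2 * (Q : ℝ) ^ (C4 * (D + 1 + 1))) ^ 4 *
        (Q : ℝ) ^ (36 * (D + 2)) * 2 ^ a * B := by
      linarith
    exact le_of_mul_le_mul_right e5 hBpos
  have e5 : (2 : ℝ) ^ a ≤ (Q : ℝ) ^ (36 * (D + 2) + 1) := by
    have f1 : 2 ^ a ≤ 2 ^ D1 := Nat.pow_le_pow_right (by norm_num) ha.le
    have f2 : 2 ^ a ≤ Q ^ (36 * (D + 2) + 1) := le_trans f1 hD1b
    exact_mod_cast f2
  have e6 : C2 ^ 4 ≤ (Q : ℝ) := by
    refine le_trans ?_ hQC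
    exact pow_le_pow_left₀ (by linarith) (by nlinarith) 4
  have e7 : (G : ℝ) ≤ (Q : ℝ) ^ (72 * (D + 2) + 4 * (C4 * (D + 2)) + 2) := by
    calc (G : ℝ) ≤ (C2 * (Q : ℝ) ^ (C4 * (D + 1 + 1))) ^ 4 * (Q : ℝ) ^ (36 * (D + 2)) * 2 ^ a := e4
      _ = C2 ^ 4 * ((Q : ℝ) ^ (4 * (C4 * (D + 2))) * (Q : ℝ) ^ (36 * (D + 2))) * 2 ^ a := by
          rw [mul_pow, ← pow_mul, show C4 * (D + 1 + 1) * 4 = 4 * (C4 * (D + 2)) by ring]; ring
      _ ≤ Q * ((Q : ℝ) ^ (4 * (C4 * (D + 2))) * (Q : ℝ) ^ (36 * (D + 2))) *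
          (Q : ℝ) ^ (36 * (D + 2) + 1) := by
          apply mul_le_mul _ e5 (by positivity) (by positivity)
          exact mul_le_mul_of_nonneg_right e6 (by positivity)
      _ = (Q : ℝ) ^ (72 * (D + 2) + 4 * (C4 * (D + 2)) + 2) := by ring
  have e8 := hpowG (72 * (D + 2) + 4 * (C4 * (D + 2)) + 2) (by nlinarith [Nat.zero_le (C4 * D)])
  linarith

end Pool.Agent.Work.MP_e17eac_co.MX
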