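import Pool.Agent.Work.MP_e17eac_co.Bd.B14

/-!
# Scale classes (item Scl)
-/

set_option autoImplicit false

namespace Pool.Agent.Work.MP_e17eac_co.MX

open Finset
open Pool.Agent.Work.MP_e17eac_co.DH
open Pool.Agent.Work.MP_e17eac_co.DH.XSWEEP (GP)

namespace XScl

section basic

variable {ι : Type} [Fintype ι] [DecidableEq ι] (K : KSys ι)

theorem vi_mono {p q p' q' : ℕ} (h1 : p' ≤ p) (h2 : q ≤ q') : vi K p q ⊆ vi K p' q' := by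
  unfold vi KSys.lines
  have h : Ico p q ⊆ Ico p' q' := Finset.Ico_subset_Ico h1 h2
  exact Finset.union_subset_union (Finset.image_subset_image h) (Finset.image_subset_image h)

theorem a_mem_vi {p q n : ℕ} (h1 : p ≤ n) (h2 : n < q) : K.a n ∈ vi K p q := by
  unfold vi KSys.lines
  exact Finset.mem_union_left _ (Finset.mem_image_of_mem _ (mem_Ico.2 ⟨h1, h2⟩))

theorem S_sdiff_sub (p q : ℕ) (hpq : p ≤ q) (hq : q ≤ K.N) : K.S p \ K.S q ⊆ vi K p q := by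
  induction q, hpq using Nat.le_induction with
  | base => simp
  | succ q hpq ih =>
    intro i hi
    rw [mem_sdiff] at hi
    obtain ⟨h1, h2⟩ := hi
    by_cases h3 : i ∈ K.S q
    · rw [K.S_succ q (by omega)] at h2
      have h4 : i = K.a q := by
        by_contra h5
        exact h2 (mem_insert_of_mem (mem_erase.2 ⟨h5, h3⟩))
      rw [h4]
      exact a_mem_vi K hpq (by omega)
    · exact vi_mono K le_rfl (by omega) (ih (by omega) (mem_sdiff.2 ⟨h1, h3⟩))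

theorem t_le {n k : ℕ} (h : n ≤ k) (hk : k < K.N) : K.t n ≤ K.t k := by
  rcases h.lt_or_eq with h | h
  · exact (K.t_lt n k h hk).le
  · rw [h]

/-- sample times -/
noncomputable def tp (μ : ℕ → ℕ) (ρ : ℕ) (y : ℕ) (j : ℤ) : ℝ := K.t (μ y) - (ρ : ℝ) ^ (-j)

/-- the scale class of an edge -/
noncomputable def zc (Y μ : ℕ → ℕ) (ρ n : ℕ) : ℕ × ℤ :=
  (Y n, Int.log ρ (K.t (μ (Y n)) - K.t n)⁻¹)

/-- the window of a class -/
noncomputable def pw (Y μ : ℕ → ℕ) (ρ : ℕ) (z : ℕ × ℤ) : ℕ :=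
  max (lo Y (μ z.1)) (K.idx (tp K μ ρ z.1 z.2))

/-- the window of a class -/
noncomputable def qw (μ : ℕ → ℕ) (ρ : ℕ) (z : ℕ × ℤ) : ℕ := K.idx (tp K μ ρ z.1 (z.2 + 1))

theorem tp_mono (μ : ℕ → ℕ) {ρ : ℕ} (hρ : 1 < ρ) (y : ℕ) {j j' : ℤ} (h : j ≤ j') :
    tp K μ ρ y j ≤ tp K μ ρ y j' := by
  unfold tp
  have h1 : (1 : ℝ) ≤ (ρ : ℝ) := by exact_mod_cast hρ.le
  have h2 : (ρ : ℝ) ^ (-j') ≤ (ρ : ℝ) ^ (-j) := zpow_le_zpow_right₀ h1 (by omega)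
  linarith

theorem tp_lt (μ : ℕ → ℕ) {ρ : ℕ} (hρ : 1 < ρ) (y : ℕ) (j : ℤ) : tp K μ ρ y j < K.t (μ y) := by
  unfold tp
  have h1 : (0 : ℝ) < (ρ : ℝ) := by exact_mod_cast (by omega : 0 < ρ)
  have h2 : (0 : ℝ) < (ρ : ℝ) ^ (-j) := zpow_pos h1 _
  linarith

theorem scale {ρ : ℕ} (hρ : 1 < ρ) {d : ℝ} (hd : 0 < d) :
    (ρ : ℝ) ^ (-(Int.log ρ d⁻¹ + 1)) < d ∧ d ≤ (ρ : ℝ) ^ (-(Int.log ρ d⁻¹)) := by
  have h1 := Int.zpow_log_le_self hρ (inv_pos.2 hd)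
  have h2 := Int.lt_zpow_succ_log_self hρ (d⁻¹)
  have hρ0 : (0 : ℝ) < (ρ : ℝ) := by exact_mod_cast (by omega : 0 < ρ)
  constructor
  · rw [zpow_neg]
    exact inv_lt_of_inv_lt₀ hd h2
  · rw [zpow_neg]
    exact (le_inv_comm₀ hd (zpow_pos hρ0 _)).2 h1

/-- `μ y` is an edge of the cell `y` -/
def Rep (Y μ : ℕ → ℕ) (y : ℕ) : Prop := μ y < K.N ∧ Y (μ y) = y

theorem idx_le_mu (h7 : StIdx) (μ : ℕ → ℕ) {ρ : ℕ} (hρ : 1 < ρ) (y : ℕ) (j : ℤ) :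
    K.idx (tp K μ ρ y j) ≤ μ y := by
  by_contra h
  push Not at h
  have h1 := (((h7 ι K).2.1 _ _).1 h).2
  have h2 := tp_lt K μ hρ y j
  linarith

theorem mem_win (h7 : StIdx) (h6 : StLoHi) {M : ℕ} {Y : ℕ → ℕ} (hY : IsCells K M Y)
    (μ : ℕ → ℕ) {ρ : ℕ} (hρ : 1 < ρ) {n : ℕ} (hn : n < K.N) (hr : Rep K Y μ (Y n))
    (hμ : n < μ (Y n)) :
    pw K Y μ ρ (zc K Y μ ρ n) ≤ n ∧ n < qw K μ ρ (zc K Y μ ρ n) := by
  have hd : 0 < K.t (μ (Y n)) - K.t n := by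
    have := K.t_lt n (μ (Y n)) hμ hr.1
    linarith
  obtain ⟨h1, h2⟩ := scale hρ hd
  refine ⟨max_le ?_ ?_, ?_⟩
  · have h3 := (h6 ι K M Y hY (μ (Y n)) hr.1).2.2.2.2.2.1 n hn
    exact (h3.1 hr.2.symm).1
  · by_contra h
    push Not at h
    have h3 := (((h7 ι K).2.1 _ _).1 h).2
    unfold zc tp at h3
    simp only at h3
    linarith
  · refine ((h7 ι K).2.1 _ _).2 ⟨hn, ?_⟩
    unfold zc tp
    simp only
    linarith

theorem disj (h7 : StIdx) (h6 : StLoHi) {M : ℕ} {Y : ℕ → ℕ} (hY : IsCells K M Y)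
    (μ : ℕ → ℕ) {ρ : ℕ} (hρ : 1 < ρ) {z z' : ℕ × ℤ} (hz : Rep K Y μ z.1) (hz' : Rep K Y μ z'.1)
    (hne : z ≠ z') : qw K μ ρ z ≤ pw K Y μ ρ z' ∨ qw K μ ρ z' ≤ pw K Y μ ρ z := by
  have key : ∀ z z' : ℕ × ℤ, Rep K Y μ z.1 → Rep K Y μ z'.1 → z.1 < z'.1 →
      qw K μ ρ z ≤ pw K Y μ ρ z' := by
    intro z z' hz hz' h
    have h1 : qw K μ ρ z ≤ μ z.1 := idx_le_mu K h7 μ hρ z.1 (z.2 + 1)
    have h2 := (h6 ι K M Y hY (μ z'.1) hz'.1).2.2.2.2.2.2.1 (μ z.1) hz.1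
    rw [hz.2, hz'.2] at h2
    have h3 := h2.1 h
    exact le_trans h1 (le_trans h3.le (le_max_left _ _))
  have key2 : ∀ z z' : ℕ × ℤ, z.1 = z'.1 → z.2 < z'.2 → qw K μ ρ z ≤ pw K Y μ ρ z' := by
    intro z z' h1 h2
    unfold qw pw
    rw [h1]
    exact le_trans ((h7 ι K).2.2.1 _ _ (tp_mono K μ hρ z'.1 (by omega))) (le_max_right _ _)
  rcases lt_trichotomy z.1 z'.1 with h | h | h
  · exact Or.inl (key z z' hz hz' h)
  · rcases lt_trichotomy z.2 z'.2 with h' | h' | h'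
    · exact Or.inl (key2 z z' h h')
    · exact absurd (Prod.ext h h') hne
    · exact Or.inr (key2 z' z h.symm h')
  · exact Or.inr (key z' z hz' hz h)

/-- number of lines visited in a class -/
noncomputable def Vz (Y μ : ℕ → ℕ) (ρ : ℕ) (z : ℕ × ℤ) : ℝ :=
  ((vi K (pw K Y μ ρ z) (qw K μ ρ z)).card : ℝ)

/-- net flips in a class -/
noncomputable def cz (Y μ : ℕ → ℕ) (ρ : ℕ) (z : ℕ × ℤ) : ℝ :=
  ((K.S (pw K Y μ ρ z) \ K.S (qw K μ ρ z)).card : ℝ)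

/-- number of lines visited in a cell -/
noncomputable def Vy (Y μ : ℕ → ℕ) (y : ℕ) : ℝ :=
  ((vi K (lo Y (μ y)) (hi K Y (μ y) + 1)).card : ℝ)

theorem cz_le_Vy (h7 : StIdx) (h6 : StLoHi) {M : ℕ} {Y : ℕ → ℕ} (hY : IsCells K M Y)
    (μ : ℕ → ℕ) {ρ : ℕ} (hρ : 1 < ρ) {y : ℕ} {j : ℤ} (hy : Rep K Y μ y)
    (hpq : pw K Y μ ρ (y, j) < qw K μ ρ (y, j)) :
    cz K Y μ ρ (y, j) ≤ Vy K Y μ y := by
  have h1 : qw K μ ρ (y, j) ≤ μ y := idx_le_mu K h7 μ hρ y (j + 1)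
  have h2 := h6 ι K M Y hY (μ y) hy.1
  unfold cz Vy
  refine Nat.cast_le.2 (card_le_card ?_)
  refine (S_sdiff_sub K _ _ hpq.le (by have := hy.1; omega)).trans ?_
  exact vi_mono K (le_max_left _ _) (by omega)

theorem sum_cz_cell (h7 : StIdx) (h6 : StLoHi) {M : ℕ} {Y : ℕ → ℕ} (hY : IsCells K M Y)
    (μ : ℕ → ℕ) {ρ : ℕ} (hρ : 1 < ρ) (hρ3 : (ρ : ℝ) = (Fintype.card ι : ℝ) ^ 3) {y : ℕ}
    (hy : Rep K Y μ y) (ε : ℝ)
    (hS : ∀ (p q m : ℕ) (i : ℕ → ℕ) (τ : ℕ → ℝ) (e : ℝ), q ≤ K.N →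
      (∀ j, j ≤ m → p ≤ i j ∧ i j ≤ q ∧ K.Valid (i j) (τ j) ∧ τ j < e) →
      (∀ j, j < m → (Fintype.card ι : ℝ) ^ 3 * (e - τ (j + 1)) ≤ e - τ j) →
      ∑ j ∈ range m, ((K.S (i j) \ K.S (i (j + 1))).card : ℝ) ≤
        ((vi K p q).card : ℝ) * (Fintype.card ι : ℝ) ^ ε)
    (J : Finset ℤ) (hJ : ∀ j ∈ J, pw K Y μ ρ (y, j) < qw K μ ρ (y, j)) :
    ∑ j ∈ J, cz K Y μ ρ (y, j) ≤ Vy K Y μ y * (1 + (Fintype.card ι : ℝ) ^ ε) := by
  classical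
  have hVy : 0 ≤ Vy K Y μ y := Nat.cast_nonneg _
  have hn0 : (0 : ℝ) ≤ (Fintype.card ι : ℝ) ^ ε := Real.rpow_nonneg (Nat.cast_nonneg _) _
  have hρ0 : (0 : ℝ) < (ρ : ℝ) := by exact_mod_cast (by omega : 0 < ρ)
  rw [← sum_filter_add_sum_filter_not J (fun j => lo Y (μ y) ≤ K.idx (tp K μ ρ y j))]
  have hA : ∑ j ∈ J.filter (fun j => lo Y (μ y) ≤ K.idx (tp K μ ρ y j)), cz K Y μ ρ (y, j) ≤
      Vy K Y μ y * (Fintype.card ι : ℝ) ^ ε := by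
    set J1 := J.filter (fun j => lo Y (μ y) ≤ K.idx (tp K μ ρ y j)) with hJ1
    rcases J1.eq_empty_or_nonempty with he | hne
    · rw [he, sum_empty]
      positivity
    set j0 := J1.min' hne with hj0
    set j1 := J1.max' hne with hj1
    have hj0m : j0 ∈ J1 := min'_mem _ _
    have h0 : lo Y (μ y) ≤ K.idx (tp K μ ρ y j0) := (mem_filter.1 hj0m).2
    set i : ℕ → ℕ := fun k => K.idx (tp K μ ρ y (j0 + k)) with hi'
    set m : ℕ := (j1 - j0 + 1).toNat with hm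
    have hle : ∀ j ∈ J1, j0 ≤ j ∧ j ≤ j1 := fun j hj => ⟨min'_le _ _ hj, le_max' _ _ hj⟩
    have hL := h6 ι K M Y hY (μ y) hy.1
    have h1 := hS (lo Y (μ y)) (hi K Y (μ y) + 1) m i (fun k => tp K μ ρ y (j0 + k)) (K.t (μ y))
      (by omega) (by
        intro k _
        refine ⟨le_trans h0 ((h7 ι K).2.2.1 _ _ (tp_mono K μ hρ y (by omega))), ?_,
          (h7 ι K).1 _, tp_lt K μ hρ y _⟩
        have := idx_le_mu K h7 μ hρ y (j0 + k)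
        show K.idx (tp K μ ρ y (j0 + k)) ≤ _
        omega) (by
        intro k _
        rw [← hρ3]
        unfold tp
        have e1 : K.t (μ y) - (K.t (μ y) - (ρ : ℝ) ^ (-(j0 + ((k + 1 : ℕ) : ℤ)))) =
            (ρ : ℝ) ^ (-(j0 + ((k + 1 : ℕ) : ℤ))) := by ring
        have e2 : K.t (μ y) - (K.t (μ y) - (ρ : ℝ) ^ (-(j0 + (k : ℤ)))) =
            (ρ : ℝ) ^ (-(j0 + (k : ℤ))) := by ring
        rw [e1, e2]
        have e3 : (-(j0 + (k : ℤ))) = 1 + (-(j0 + ((k + 1 : ℕ) : ℤ))) := by push_cast; ring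
        rw [e3, zpow_add₀ hρ0.ne', zpow_one])
    have h2 : ∑ j ∈ J1, cz K Y μ ρ (y, j) =
        ∑ k ∈ J1.image (fun j => (j - j0).toNat), ((K.S (i k) \ K.S (i (k + 1))).card : ℝ) := by
      rw [sum_image]
      · refine sum_congr rfl fun j hj => ?_
        have hj' := hle j hj
        have e1 : ((j - j0).toNat : ℤ) = j - j0 := Int.toNat_of_nonneg (by omega)
        have e2 : i ((j - j0).toNat) = pw K Y μ ρ (y, j) := by
          show K.idx (tp K μ ρ y (j0 + ((j - j0).toNat : ℤ))) = _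
          rw [e1, add_sub_cancel]
          unfold pw
          exact (max_eq_right (mem_filter.1 hj).2).symm
        have e3 : i ((j - j0).toNat + 1) = qw K μ ρ (y, j) := by
          show K.idx (tp K μ ρ y (j0 + (((j - j0).toNat + 1 : ℕ) : ℤ))) = _
          have e4 : j0 + (((j - j0).toNat + 1 : ℕ) : ℤ) = j + 1 := by push_cast; omega
          rw [e4]
          rfl
        rw [e2, e3]
        rfl
      · intro j hj j' hj' h
        have a1 := hle j (mem_coe.1 hj)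
        have a2 := hle j' (mem_coe.1 hj')
        simp only at h
        omega
    rw [h2]
    refine le_trans (sum_le_sum_of_subset_of_nonneg ?_ fun _ _ _ => Nat.cast_nonneg _) h1
    intro k hk
    obtain ⟨j, hj, rfl⟩ := mem_image.1 hk
    have := hle j hj
    rw [mem_range]
    omega
  have hB : ∑ j ∈ J.filter (fun j => ¬ lo Y (μ y) ≤ K.idx (tp K μ ρ y j)),
      cz K Y μ ρ (y, j) ≤ Vy K Y μ y := by
    set J2 := J.filter (fun j => ¬ lo Y (μ y) ≤ K.idx (tp K μ ρ y j)) with hJ2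
    have hc : J2.card ≤ 1 := by
      have key : ∀ j ∈ J2, ∀ j' ∈ J2, ¬ j < j' := by
        intro j hj j' hj' h
        have a1 := hJ j (mem_filter.1 hj).1
        have a2 := (mem_filter.1 hj').2
        push Not at a2
        have a3 : lo Y (μ y) ≤ pw K Y μ ρ (y, j) := le_max_left _ _
        have a4 : qw K μ ρ (y, j) ≤ K.idx (tp K μ ρ y j') :=
          (h7 ι K).2.2.1 _ _ (tp_mono K μ hρ y (by omega))
        omega
      rw [card_le_one]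
      intro j hj j' hj'
      have b1 := key j hj j' hj'
      have b2 := key j' hj' j hj
      omega
    have h1 : ∑ j ∈ J2, cz K Y μ ρ (y, j) ≤ J2.card • Vy K Y μ y :=
      sum_le_card_nsmul _ _ _ fun j hj => cz_le_Vy K h7 h6 hY μ hρ hy (hJ j (mem_filter.1 hj).1)
    refine h1.trans ?_
    rw [nsmul_eq_mul]
    have h2 : ((J2.card : ℕ) : ℝ) ≤ 1 := by exact_mod_cast hc
    nlinarith
  linarith

theorem sum_Vy (h6 : StLoHi) {M : ℕ} {Y : ℕ → ℕ} (hY : IsCells K M Y) (μ : ℕ → ℕ) {C : ℝ}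
    (hC : 1 ≤ C)
    (hT : ∀ (α : Type) (A : Finset α) (p q : α → ℕ),
      (∀ z ∈ A, q z ≤ K.N) → (∀ z ∈ A, ∀ z' ∈ A, z ≠ z' → q z ≤ p z' ∨ q z' ≤ p z) →
      (∑ z ∈ A, ((vi K (p z) (q z)).card : ℝ) ≤
        C * Fintype.card ι * (A.card : ℝ) ^ ((1 : ℝ) / 4)) ∧
      ∀ lam : ℝ, 0 < lam → (∀ z ∈ A, lam ≤ ((vi K (p z) (q z)).card : ℝ)) →
        (A.card : ℝ) ≤ (C * Fintype.card ι / lam) ^ ((4 : ℝ) / 3))
    (T : Finset ℕ) (hR : ∀ y ∈ T, Rep K Y μ y) (hTM : T.card ≤ M) :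
    ∑ y ∈ T, Vy K Y μ y ≤ C * Fintype.card ι * (M : ℝ) ^ ((1 : ℝ) / 4) := by
  have key : ∀ y ∈ T, ∀ y' ∈ T, y < y' → hi K Y (μ y) + 1 ≤ lo Y (μ y') := by
    intro y hy y' hy' h
    have a1 := h6 ι K M Y hY (μ y) (hR y hy).1
    have a2 := h6 ι K M Y hY (μ y') (hR y' hy').1
    have a3 := (hR y' hy').1
    have a4 : lo Y (μ y') < K.N := by omega
    have a5 : Y (lo Y (μ y')) = Y (μ y') := a2.2.2.2.1
    have a6 := (a1.2.2.2.2.2.2.2.1 (lo Y (μ y')) a4).1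
    rw [a5, (hR y hy).2, (hR y' hy').2] at a6
    have := a6 h
    omega
  have h := (hT ℕ T (fun y => lo Y (μ y)) (fun y => hi K Y (μ y) + 1)
    (fun y hy => by
      have a1 := h6 ι K M Y hY (μ y) (hR y hy).1
      show hi K Y (μ y) + 1 ≤ K.N
      omega)
    (fun y hy y' hy' hne => by
      rcases lt_or_gt_of_ne hne with h | h
      · exact Or.inl (key y hy y' hy' h)
      · exact Or.inr (key y' hy' y hy h))).1
  refine h.trans ?_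
  have h1 : (T.card : ℝ) ^ ((1 : ℝ) / 4) ≤ (M : ℝ) ^ ((1 : ℝ) / 4) :=
    Real.rpow_le_rpow (Nat.cast_nonneg _) (Nat.cast_le.2 hTM) (by norm_num)
  have h2 : (0 : ℝ) ≤ C * Fintype.card ι := by positivity
  exact mul_le_mul_of_nonneg_left h1 h2

theorem sum_cz_all (h7 : StIdx) (h6 : StLoHi) {M : ℕ} {Y : ℕ → ℕ} (hY : IsCells K M Y)
    (μ : ℕ → ℕ) {ρ : ℕ} (hρ : 1 < ρ) (hρ3 : (ρ : ℝ) = (Fintype.card ι : ℝ) ^ 3) {C : ℝ}
    (hC : 1 ≤ C)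
    (hT : ∀ (α : Type) (A : Finset α) (p q : α → ℕ),
      (∀ z ∈ A, q z ≤ K.N) → (∀ z ∈ A, ∀ z' ∈ A, z ≠ z' → q z ≤ p z' ∨ q z' ≤ p z) →
      (∑ z ∈ A, ((vi K (p z) (q z)).card : ℝ) ≤
        C * Fintype.card ι * (A.card : ℝ) ^ ((1 : ℝ) / 4)) ∧
      ∀ lam : ℝ, 0 < lam → (∀ z ∈ A, lam ≤ ((vi K (p z) (q z)).card : ℝ)) →
        (A.card : ℝ) ≤ (C * Fintype.card ι / lam) ^ ((4 : ℝ) / 3)) (ε : ℝ)
    (hS : ∀ (p q m : ℕ) (i : ℕ → ℕ) (τ : ℕ → ℝ) (e : ℝ), q ≤ K.N →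
      (∀ j, j ≤ m → p ≤ i j ∧ i j ≤ q ∧ K.Valid (i j) (τ j) ∧ τ j < e) →
      (∀ j, j < m → (Fintype.card ι : ℝ) ^ 3 * (e - τ (j + 1)) ≤ e - τ j) →
      ∑ j ∈ range m, ((K.S (i j) \ K.S (i (j + 1))).card : ℝ) ≤
        ((vi K p q).card : ℝ) * (Fintype.card ι : ℝ) ^ ε)
    (A : Finset (ℕ × ℤ)) (hA : ∀ z ∈ A, Rep K Y μ z.1 ∧ pw K Y μ ρ z < qw K μ ρ z) :
    ∑ z ∈ A, cz K Y μ ρ z ≤
      C * Fintype.card ι * (M : ℝ) ^ ((1 : ℝ) / 4) * (1 + (Fintype.card ι : ℝ) ^ ε) := by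
  classical
  have hn0 : (0 : ℝ) ≤ (Fintype.card ι : ℝ) ^ ε := Real.rpow_nonneg (Nat.cast_nonneg _) _
  have hR : ∀ y ∈ A.image Prod.fst, Rep K Y μ y := by
    intro y hy
    obtain ⟨z, hz, rfl⟩ := mem_image.1 hy
    exact (hA z hz).1
  have hTM : (A.image Prod.fst).card ≤ M := by
    have h1 : A.image Prod.fst ⊆ range M := by
      intro y hy
      have h2 := hR y hy
      have h3 := hY.lt (μ y) h2.1
      rw [h2.2] at h3
      exact mem_range.2 h3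
    have := card_le_card h1
    rwa [card_range] at this
  have h1 := sum_Vy K h6 hY μ hC hT (A.image Prod.fst) hR hTM
  rw [← sum_fiberwise_of_maps_to (g := Prod.fst) (t := A.image Prod.fst)
    (fun z hz => mem_image_of_mem _ hz)]
  have h2 : ∀ y ∈ A.image Prod.fst, ∑ z ∈ A.filter (fun z => z.1 = y), cz K Y μ ρ z ≤
      Vy K Y μ y * (1 + (Fintype.card ι : ℝ) ^ ε) := by
    intro y hy
    have h3 : ∑ z ∈ A.filter (fun z => z.1 = y), cz K Y μ ρ z =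
        ∑ j ∈ (A.filter (fun z => z.1 = y)).image Prod.snd, cz K Y μ ρ (y, j) := by
      rw [sum_image]
      · refine sum_congr rfl fun z hz => ?_
        have h4 := (mem_filter.1 hz).2
        rw [← h4]
      · intro z hz z' hz' h
        have a1 := (mem_filter.1 (mem_coe.1 hz)).2
        have a2 := (mem_filter.1 (mem_coe.1 hz')).2
        exact Prod.ext (a1.trans a2.symm) h
    rw [h3]
    refine sum_cz_cell K h7 h6 hY μ hρ hρ3 (hR y hy) ε hS _ ?_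
    intro j hj
    obtain ⟨z, hz, rfl⟩ := mem_image.1 hj
    have a1 := (mem_filter.1 hz).2
    rw [← a1]
    exact (hA z (mem_filter.1 hz).1).2
  refine (sum_le_sum h2).trans ?_
  rw [← sum_mul]
  exact mul_le_mul_of_nonneg_right h1 (by positivity)

theorem class_card (h2 : StNet) (hx : Function.Injective K.x) (hGP : GP K.x K.y) (Y μ : ℕ → ℕ)
    (ρ : ℕ) (z : ℕ × ℤ) (hz : pw K Y μ ρ z ≤ qw K μ ρ z) (hq : qw K μ ρ z ≤ K.N) (G : Finset ℕ)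
    (hG : G ⊆ Ico (pw K Y μ ρ z) (qw K μ ρ z)) :
    (G.card : ℝ) ≤ 32 * (Vz K Y μ ρ z * (cz K Y μ ρ z) ^ ((1 : ℝ) / 3)) := by
  have h := h2 ι K hx hGP _ _ hz hq
  have h1 : G.card ≤ qw K μ ρ z - pw K Y μ ρ z := by
    have := card_le_card hG
    rwa [Nat.card_Ico] at this
  have h3 : ((qw K μ ρ z - pw K Y μ ρ z : ℕ) : ℝ) ^ 3 ≤
      2 ^ 15 * (Vz K Y μ ρ z ^ 3 * cz K Y μ ρ z) := by
    unfold Vz cz
    exact_mod_cast h
  have hc0 : 0 ≤ cz K Y μ ρ z := Nat.cast_nonneg _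
  have hV0 : 0 ≤ Vz K Y μ ρ z := Nat.cast_nonneg _
  have h4 : (cz K Y μ ρ z ^ ((1 : ℝ) / 3)) ^ 3 = cz K Y μ ρ z := by
    rw [← Real.rpow_natCast, ← Real.rpow_mul hc0]
    norm_num
  have h5 : (32 * (Vz K Y μ ρ z * (cz K Y μ ρ z) ^ ((1 : ℝ) / 3))) ^ 3 =
      2 ^ 15 * (Vz K Y μ ρ z ^ 3 * cz K Y μ ρ z) := by
    rw [mul_pow, mul_pow, h4]
    norm_num
  have h6 : 0 ≤ cz K Y μ ρ z ^ ((1 : ℝ) / 3) := Real.rpow_nonneg hc0 _
  have h7 : (G.card : ℝ) ≤ ((qw K μ ρ z - pw K Y μ ρ z : ℕ) : ℝ) := Nat.cast_le.2 h1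
  refine h7.trans (le_of_pow_le_pow_left₀ (n := 3) (by norm_num) (by positivity) ?_)
  rw [h5]
  exact h3

theorem child_cnt (h5 : StSupCnt) (h6 : StLoHi) {B : ℕ} {Y cp : ℕ → ℕ} (hcp : IsCells K B cp)
    (μ : ℕ → ℕ) {ρ : ℕ} (hρ : 1 < ρ) {Q : ℕ} (hQ : 8 ≤ Q) {k : ℕ}
    (hk : 2 * (ρ : ℝ) ≤ ((Q : ℝ) / 4) ^ k) (z : ℕ × ℤ) (G : Finset ℕ)
    (hG : ∀ n ∈ G, n < K.N ∧ zc K Y μ ρ n = z ∧ hi K cp n < μ (Y n) ∧ μ (Y n) < K.N ∧
      K.t (μ (Y n)) - K.t (hi K cp n) < 4 / Q * len K cp n) :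
    (G.image cp).card ≤ k + 2 := by
  classical
  have hρ0 : (0 : ℝ) < (ρ : ℝ) := by exact_mod_cast (by omega : 0 < ρ)
  have h : ∀ u, ∃ n, u ∈ G.image cp → n ∈ G ∧ cp n = u := by
    intro u
    by_cases hu : u ∈ G.image cp
    · obtain ⟨n, hn, h⟩ := mem_image.1 hu
      exact ⟨n, fun _ => ⟨hn, h⟩⟩
    · exact ⟨0, fun h => absurd h hu⟩
  choose w hw using h
  have hYz : ∀ n ∈ G, Y n = z.1 := fun n hn => by
    have := (hG n hn).2.1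
    rw [← this]
    rfl
  refine h5 (G.image cp) (fun u => K.t (lo cp (w u))) (fun u => K.t (hi K cp (w u)))
    (fun u => K.t (w u)) (K.t (μ z.1)) ((ρ : ℝ) ^ (-(z.2 + 1))) ρ Q k (by exact_mod_cast hQ)
    (zpow_pos hρ0 _) ?_ ?_ ?_ hk
  · intro u hu
    obtain ⟨h1, h2⟩ := hw u hu
    obtain ⟨g1, g2, g3, g4, g5⟩ := hG _ h1
    have a := h6 ι K B cp hcp (w u) g1
    have g3' := g3
    have g4' := g4
    rw [hYz _ h1] at g3 g4 g5
    refine ⟨t_le K a.1 g1, t_le K a.2.1 a.2.2.1, K.t_lt _ _ g3 g4, ?_⟩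
    exact g5
  · intro u hu u' hu' huu
    obtain ⟨h1, h2⟩ := hw u hu
    obtain ⟨h1', h2'⟩ := hw u' hu'
    have a := h6 ι K B cp hcp (w u) (hG _ h1).1
    have a' := h6 ι K B cp hcp (w u') (hG _ h1').1
    have b1 := (hG _ h1').1
    have b2 : lo cp (w u') < K.N := by omega
    have b3 := (a.2.2.2.2.2.2.2.1 (lo cp (w u')) b2).1
    rw [a'.2.2.2.1, h2, h2'] at b3
    exact K.t_lt _ _ (b3 huu) b2
  · intro u hu
    obtain ⟨h1, h2⟩ := hw u hu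
    obtain ⟨g1, g2, g3, g4, g5⟩ := hG _ h1
    have a := h6 ι K B cp hcp (w u) g1
    have hd : 0 < K.t (μ (Y (w u))) - K.t (w u) := by
      have := K.t_lt (w u) (μ (Y (w u))) (by omega) g4
      linarith
    obtain ⟨s1, s2⟩ := scale hρ hd
    have e1 : Int.log ρ (K.t (μ (Y (w u))) - K.t (w u))⁻¹ = z.2 := by
      rw [← g2]
      rfl
    rw [e1, hYz _ h1] at s1 s2
    refine ⟨s1, s2.trans (le_of_eq ?_)⟩
    have e3 : -z.2 = 1 + (-(z.2 + 1)) := by ring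
    rw [e3, zpow_add₀ hρ0.ne', zpow_one]

end basic

section num

theorem num_light {C n Q M T L N Fc ne : ℝ} {D : ℕ} (hC : 1 ≤ C) (hn : 1 ≤ n) (hQ : 1 ≤ Q)
    (hM : 1 ≤ M) (hT0 : 0 ≤ T) (hne1 : 1 ≤ ne) (hneQ : ne ≤ Q) (hCQ : 1280 * C ^ 2 ≤ Q)
    (hT : T ≤ C * n * M ^ ((1 : ℝ) / 4) * (1 + ne))
    (hL : L ≤ 320 * ((C * n) ^ ((8 : ℝ) / 9) *
      (n / (M ^ ((1 : ℝ) / 12) * Q ^ (D + 4)) ^ 9) ^ ((1 : ℝ) / 9) * T ^ ((1 : ℝ) / 3)))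
    (hN : n ^ ((4 : ℝ) / 3) ≤ Q * N) (hF : N ≤ Q ^ D * Fc) : 2 * L ≤ Fc := by
  have hC0 : 0 < C := by linarith
  have hn0 : 0 < n := by linarith
  have hQ0 : 0 < Q := by linarith
  have hM0 : 0 < M := by linarith
  have hM12 : 0 < M ^ ((1 : ℝ) / 12) := Real.rpow_pos_of_pos hM0 _
  set s := M ^ ((1 : ℝ) / 12) * Q ^ (D + 4) with hs
  have hs0 : 0 < s := by positivity
  have e1 : (C * n) ^ ((8 : ℝ) / 9) ≤ C * n ^ ((8 : ℝ) / 9) := by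
    rw [Real.mul_rpow hC0.le hn0.le]
    refine mul_le_mul_of_nonneg_right ?_ (Real.rpow_nonneg hn0.le _)
    exact Real.rpow_le_self_of_one_le hC (by norm_num)
  have e2 : (n / s ^ 9) ^ ((1 : ℝ) / 9) = n ^ ((1 : ℝ) / 9) / s := by
    rw [Real.div_rpow hn0.le (by positivity)]
    congr 1
    rw [← Real.rpow_natCast, ← Real.rpow_mul hs0.le]
    norm_num
  have hne0 : 0 < ne := by linarith
  have e3 : T ^ ((1 : ℝ) / 3) ≤ 2 * C * (n ^ ((1 : ℝ) / 3) * Q * M ^ ((1 : ℝ) / 12)) := by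
    have a1 : T ≤ (2 * C) * (n * (ne * M ^ ((1 : ℝ) / 4))) := by
      refine hT.trans ?_
      have a2 : 0 ≤ C * n * M ^ ((1 : ℝ) / 4) := by positivity
      nlinarith [mul_le_mul_of_nonneg_left (show 1 + ne ≤ 2 * ne by linarith) a2]
    have a3 := Real.rpow_le_rpow hT0 a1 (show (0 : ℝ) ≤ 1 / 3 by norm_num)
    refine a3.trans ?_
    have hM4 : 0 ≤ M ^ ((1 : ℝ) / 4) := Real.rpow_nonneg hM0.le _
    rw [Real.mul_rpow (by positivity) (by positivity), Real.mul_rpow hn0.le (by positivity),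
      Real.mul_rpow hne0.le hM4]
    have a4 : (M ^ ((1 : ℝ) / 4)) ^ ((1 : ℝ) / 3) = M ^ ((1 : ℝ) / 12) := by
      rw [← Real.rpow_mul hM0.le]
      norm_num
    have a5 : (2 * C) ^ ((1 : ℝ) / 3) ≤ 2 * C :=
      Real.rpow_le_self_of_one_le (by linarith) (by norm_num)
    have a6 : ne ^ ((1 : ℝ) / 3) ≤ Q :=
      (Real.rpow_le_self_of_one_le hne1 (by norm_num)).trans hneQ
    rw [a4]
    have b1 : 0 ≤ n ^ ((1 : ℝ) / 3) := Real.rpow_nonneg hn0.le _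
    have b2 : ne ^ ((1 : ℝ) / 3) * M ^ ((1 : ℝ) / 12) ≤ Q * M ^ ((1 : ℝ) / 12) :=
      mul_le_mul_of_nonneg_right a6 hM12.le
    have b3 : n ^ ((1 : ℝ) / 3) * (ne ^ ((1 : ℝ) / 3) * M ^ ((1 : ℝ) / 12)) ≤
        n ^ ((1 : ℝ) / 3) * (Q * M ^ ((1 : ℝ) / 12)) := mul_le_mul_of_nonneg_left b2 b1
    have b4 : 0 ≤ n ^ ((1 : ℝ) / 3) * (ne ^ ((1 : ℝ) / 3) * M ^ ((1 : ℝ) / 12)) := by
      have : 0 ≤ ne ^ ((1 : ℝ) / 3) := Real.rpow_nonneg hne0.le _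
      positivity
    calc (2 * C) ^ ((1 : ℝ) / 3) *
          (n ^ ((1 : ℝ) / 3) * (ne ^ ((1 : ℝ) / 3) * M ^ ((1 : ℝ) / 12)))
        ≤ (2 * C) * (n ^ ((1 : ℝ) / 3) * (Q * M ^ ((1 : ℝ) / 12))) :=
          mul_le_mul a5 b3 b4 (by linarith)
      _ = _ := by ring
  have e4 : n ^ ((8 : ℝ) / 9) * n ^ ((1 : ℝ) / 9) * n ^ ((1 : ℝ) / 3) = n ^ ((4 : ℝ) / 3) := by
    rw [← Real.rpow_add hn0, ← Real.rpow_add hn0]
    norm_num
  have hn89 : 0 ≤ n ^ ((8 : ℝ) / 9) := Real.rpow_nonneg hn0.le _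
  have hn19 : 0 ≤ n ^ ((1 : ℝ) / 9) := Real.rpow_nonneg hn0.le _
  have hn43 : 0 ≤ n ^ ((4 : ℝ) / 3) := Real.rpow_nonneg hn0.le _
  have e5 : (C * n) ^ ((8 : ℝ) / 9) * (n / s ^ 9) ^ ((1 : ℝ) / 9) * T ^ ((1 : ℝ) / 3) ≤
      2 * C ^ 2 * (n ^ ((4 : ℝ) / 3) / Q ^ (D + 3)) := by
    rw [e2]
    have c1 : (C * n) ^ ((8 : ℝ) / 9) * (n ^ ((1 : ℝ) / 9) / s) ≤
        C * n ^ ((8 : ℝ) / 9) * (n ^ ((1 : ℝ) / 9) / s) :=
      mul_le_mul_of_nonneg_right e1 (by positivity)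
    have c2 : 0 ≤ T ^ ((1 : ℝ) / 3) := Real.rpow_nonneg hT0 _
    refine (mul_le_mul c1 e3 c2 (by positivity)).trans (le_of_eq ?_)
    rw [← e4, hs]
    have d1 : Q ^ (D + 4) = Q ^ (D + 3) * Q := by ring
    rw [d1]
    field_simp
  have hQ3 : 0 < Q ^ (D + 3) := by positivity
  have e6 : n ^ ((4 : ℝ) / 3) ≤ Q ^ (D + 1) * Fc := by
    refine hN.trans ?_
    have := mul_le_mul_of_nonneg_left hF hQ0.le
    calc Q * N ≤ Q * (Q ^ D * Fc) := this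
      _ = _ := by ring
  have hFc : 0 ≤ Fc := by
    have : 0 < n ^ ((4 : ℝ) / 3) := Real.rpow_pos_of_pos hn0 _
    have h2 : 0 < Q ^ (D + 1) * Fc := lt_of_lt_of_le this e6
    exact (pos_of_mul_pos_right h2 (by positivity)).le
  have e7 : n ^ ((4 : ℝ) / 3) / Q ^ (D + 3) ≤ Fc / Q ^ 2 := by
    rw [div_le_div_iff₀ hQ3 (by positivity)]
    calc n ^ ((4 : ℝ) / 3) * Q ^ 2 ≤ Q ^ (D + 1) * Fc * Q ^ 2 :=
          mul_le_mul_of_nonneg_right e6 (by positivity)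
      _ = _ := by ring
  have e8 : 1280 * C ^ 2 * (Fc / Q ^ 2) ≤ Fc := by
    rw [← mul_div_assoc, div_le_iff₀ (by positivity)]
    have : 1280 * C ^ 2 ≤ Q ^ 2 := by nlinarith
    nlinarith
  have hC2 : 0 ≤ C ^ 2 := by positivity
  nlinarith [mul_le_mul_of_nonneg_left e7 hC2]

theorem num_heavy {C n Q M a S : ℝ} {D : ℕ} (hC : 1 ≤ C) (hn : 1 ≤ n) (hQ : 1 ≤ Q)
    (hM : 1 ≤ M) (ha0 : 0 ≤ a)
    (ha : a ≤ (C * n / (n / (M ^ ((1 : ℝ) / 12) * Q ^ (D + 4)) ^ 9)) ^ ((4 : ℝ) / 3))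
    (hS : S ≤ C * n * a ^ ((1 : ℝ) / 4)) :
    S ≤ C ^ 2 * n * (M ^ ((1 : ℝ) / 4) * Q ^ (3 * (D + 4))) := by
  have hC0 : 0 < C := by linarith
  have hn0 : 0 < n := by linarith
  have hQ0 : 0 < Q := by linarith
  have hM0 : 0 < M := by linarith
  have hM12 : 0 < M ^ ((1 : ℝ) / 12) := Real.rpow_pos_of_pos hM0 _
  set s := M ^ ((1 : ℝ) / 12) * Q ^ (D + 4) with hs
  have hs0 : 0 < s := by positivity
  have e1 : C * n / (n / s ^ 9) = C * s ^ 9 := by field_simp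
  rw [e1] at ha
  have e2 : a ^ ((1 : ℝ) / 4) ≤ C * s ^ 3 := by
    have h1 := Real.rpow_le_rpow ha0 ha (show (0 : ℝ) ≤ 1 / 4 by norm_num)
    refine h1.trans ?_
    rw [← Real.rpow_mul (by positivity), Real.mul_rpow hC0.le (by positivity)]
    have h2 : C ^ ((4 : ℝ) / 3 * (1 / 4)) ≤ C := Real.rpow_le_self_of_one_le hC (by norm_num)
    have h3 : (s ^ 9) ^ ((4 : ℝ) / 3 * (1 / 4)) = s ^ 3 := by
      rw [← Real.rpow_natCast, ← Real.rpow_mul hs0.le, ← Real.rpow_natCast]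
      norm_num
    rw [h3]
    exact mul_le_mul_of_nonneg_right h2 (by positivity)
  have e3 : s ^ 3 = M ^ ((1 : ℝ) / 4) * Q ^ (3 * (D + 4)) := by
    rw [hs, mul_pow, ← pow_mul, mul_comm (D + 4) 3]
    congr 1
    rw [← Real.rpow_natCast, ← Real.rpow_mul hM0.le]
    norm_num
  rw [← e3]
  refine hS.trans ?_
  have := mul_le_mul_of_nonneg_left e2 (show 0 ≤ C * n by positivity)
  calc C * n * a ^ ((1 : ℝ) / 4) ≤ C * n * (C * s ^ 3) := this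
    _ = _ := by ring

/-- the number of children per class -/
theorem num_k {η n Q : ℝ} (hη : 0 < η) (hn : 2 ≤ n) (hQ : 16 ≤ Q) (hQn : n ^ η ≤ Q) :
    2 * n ^ 3 ≤ (Q / 4) ^ ⌈8 / η⌉₊ := by
  set k := ⌈8 / η⌉₊ with hk
  have hk1 : 8 / η ≤ (k : ℝ) := Nat.le_ceil _
  have hn0 : 0 < n := by linarith
  have h1 : Q ≤ (Q / 4) ^ 2 := by nlinarith
  have h2 : n ^ (8 : ℝ) ≤ Q ^ k := by
    calc n ^ (8 : ℝ) ≤ n ^ (η * k) := by
          refine Real.rpow_le_rpow_of_exponent_le (by linarith) ?_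
          rw [div_le_iff₀ hη] at hk1
          linarith
      _ = (n ^ η) ^ k := by rw [Real.rpow_mul hn0.le, Real.rpow_natCast]
      _ ≤ Q ^ k := pow_le_pow_left₀ (Real.rpow_nonneg hn0.le _) hQn k
  have h3 : (n ^ 4) ^ 2 ≤ ((Q / 4) ^ k) ^ 2 := by
    calc (n ^ 4) ^ 2 = n ^ (8 : ℝ) := by
          rw [← pow_mul, ← Real.rpow_natCast]
          norm_num
      _ ≤ Q ^ k := h2
      _ ≤ ((Q / 4) ^ 2) ^ k := pow_le_pow_left₀ (by linarith) h1 k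
      _ = _ := by rw [← pow_mul, ← pow_mul, mul_comm]
  have h4 : n ^ 4 ≤ (Q / 4) ^ k :=
    le_of_pow_le_pow_left₀ (n := 2) (by norm_num) (by positivity) h3
  refine le_trans ?_ h4
  have h5 : 0 ≤ n ^ 3 := by positivity
  nlinarith

end num

end XScl

theorem I_Scl (h1 : StT2i) (h2 : StNet) (h3 : StSamp) (h4 : StHol) (h5 : StSupCnt) (h6 : StLoHi)
    (h7 : StIdx) : StScl := by
  classical
  obtain ⟨C, hC, hT2⟩ := h1
  refine ⟨13, fun η D hη => ?_⟩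
  obtain ⟨n1, hn1⟩ := h3 η hη
  set k := ⌈8 / η⌉₊ with hk
  set K0 : ℝ := 1280 * C ^ 2 + (k + 2) * C ^ 2 + 16 with hK0
  have hK0pos : 0 < K0 := by positivity
  refine ⟨max n1 (max 2 ⌈K0 ^ (1 / η)⌉₊), ?_⟩
  intro ι _ _ K hx hGP hcard Q hQn hQN M B Y cp hM hY hcp F hF hNF μ hμ
  have hT := fun (α : Type) (A : Finset α) (p q : α → ℕ) => hT2 ι K hx hGP α A p q
  have hS := hn1 ι K hx (le_trans (le_max_left _ _) hcard)
  have hcard2 : 2 ≤ Fintype.card ι :=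
    le_trans (le_trans (le_max_left _ _) (le_max_right _ _)) hcard
  have hn2 : (2 : ℝ) ≤ (Fintype.card ι : ℝ) := by exact_mod_cast hcard2
  set n : ℝ := (Fintype.card ι : ℝ) with hn
  have hn0 : 0 < n := by linarith
  have hKn : K0 ≤ n ^ η := by
    have a1 : K0 ^ (1 / η) ≤ n := by
      refine (Nat.le_ceil _).trans (Nat.cast_le.2 ?_)
      exact le_trans (le_trans (le_max_right _ _) (le_max_right _ _)) hcard
    have a2 := Real.rpow_le_rpow (Real.rpow_nonneg hK0pos.le _) a1 hη.le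
    rwa [← Real.rpow_mul hK0pos.le, one_div, inv_mul_cancel₀ hη.ne', Real.rpow_one] at a2
  have hKQ : K0 ≤ (Q : ℝ) := hKn.trans hQn
  have hC2 : 1 ≤ C ^ 2 := by nlinarith
  have hkC : 0 ≤ ((k : ℝ) + 2) * C ^ 2 := by positivity
  have hQ16 : (16 : ℝ) ≤ (Q : ℝ) := by nlinarith
  have hQ1 : (1 : ℝ) ≤ (Q : ℝ) := by linarith
  have hCQ : 1280 * C ^ 2 ≤ (Q : ℝ) := by nlinarith
  have hkQ : ((k : ℝ) + 2) * C ^ 2 ≤ (Q : ℝ) := by nlinarith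
  have hQ8 : 8 ≤ Q := by
    have : (8 : ℝ) ≤ (Q : ℝ) := by linarith
    exact_mod_cast this
  have hM1 : (1 : ℝ) ≤ (M : ℝ) := by exact_mod_cast hM
  have hne1 : 1 ≤ n ^ η := Real.one_le_rpow (by linarith) hη.le
  -- the scale
  set ρ : ℕ := Fintype.card ι ^ 3 with hρd
  have hρ : 1 < ρ := Nat.one_lt_pow (by norm_num) (by omega)
  have hρ3 : (ρ : ℝ) = (Fintype.card ι : ℝ) ^ 3 := by rw [hρd]; push_cast; rfl
  have hk2 : 2 * (ρ : ℝ) ≤ ((Q : ℝ) / 4) ^ k := by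
    rw [hρ3]
    exact XScl.num_k hη hn2 hQ16 hQn
  -- the classes
  have hrep : ∀ m ∈ F, XScl.Rep K Y μ (Y m) := fun m hm => ⟨(hμ m hm).2.1, (hμ m hm).2.2.1⟩
  have hFN : ∀ m ∈ F, m < K.N := fun m hm => mem_range.1 (hF hm)
  have hlt : ∀ m ∈ F, m < μ (Y m) := fun m hm => by
    have a := (h6 ι K B cp hcp m (hFN m hm)).2.1
    have := (hμ m hm).1
    omega
  have hwin : ∀ m ∈ F, XScl.pw K Y μ ρ (XScl.zc K Y μ ρ m) ≤ m ∧
      m < XScl.qw K μ ρ (XScl.zc K Y μ ρ m) := fun m hm =>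
    XScl.mem_win K h7 h6 hY μ hρ (hFN m hm) (hrep m hm) (hlt m hm)
  set A := F.image (XScl.zc K Y μ ρ) with hA
  have hAz : ∀ z ∈ A, XScl.Rep K Y μ z.1 ∧ XScl.pw K Y μ ρ z < XScl.qw K μ ρ z := by
    intro z hz
    obtain ⟨m, hm, rfl⟩ := mem_image.1 hz
    have := hwin m hm
    exact ⟨hrep m hm, by omega⟩
  have hqN : ∀ z ∈ A, XScl.qw K μ ρ z ≤ K.N := fun z _ => (h7 ι K).2.2.2 _
  have hdis : ∀ z ∈ A, ∀ z' ∈ A, z ≠ z' →
      XScl.qw K μ ρ z ≤ XScl.pw K Y μ ρ z' ∨ XScl.qw K μ ρ z' ≤ XScl.pw K Y μ ρ z :=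
    fun z hz z' hz' hne => XScl.disj K h7 h6 hY μ hρ (hAz z hz).1 (hAz z' hz').1 hne
  have hcs := XScl.sum_cz_all K h7 h6 hY μ hρ hρ3 hC hT η hS A hAz
  -- light and heavy classes
  set lam : ℝ := n / ((M : ℝ) ^ ((1 : ℝ) / 12) * (Q : ℝ) ^ (D + 4)) ^ 9 with hlam
  have hM12 : 0 < (M : ℝ) ^ ((1 : ℝ) / 12) := Real.rpow_pos_of_pos (by linarith) _
  have hlam0 : 0 < lam := by
    have : 0 < (Q : ℝ) := by linarith
    positivity
  set Al := A.filter (fun z => XScl.Vz K Y μ ρ z ≤ lam) with hAl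
  set Ah := A.filter (fun z => ¬ XScl.Vz K Y μ ρ z ≤ lam) with hAh
  set Fl := F.filter (fun m => XScl.Vz K Y μ ρ (XScl.zc K Y μ ρ m) ≤ lam) with hFl
  set Fh := F.filter (fun m => ¬ XScl.Vz K Y μ ρ (XScl.zc K Y μ ρ m) ≤ lam) with hFh
  have hsplit : Fl.card + Fh.card = F.card := card_filter_add_card_filter_not _
  -- the light classes
  have hlight : 2 * (Fl.card : ℝ) ≤ (F.card : ℝ) := by
    have b1 : (Fl.card : ℝ) ≤ ∑ z ∈ Al, 32 * (XScl.Vz K Y μ ρ z *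
        (XScl.cz K Y μ ρ z) ^ ((1 : ℝ) / 3)) := by
      have b2 : Fl.card = ∑ z ∈ Al, (Fl.filter (fun m => XScl.zc K Y μ ρ m = z)).card :=
        card_eq_sum_card_fiberwise fun m hm => by
          have hm' := mem_filter.1 (mem_coe.1 hm)
          exact mem_coe.2 (mem_filter.2 ⟨mem_image_of_mem _ hm'.1, hm'.2⟩)
      rw [b2]
      push_cast
      refine sum_le_sum fun z hz => ?_
      have hzA := (mem_filter.1 hz).1
      refine XScl.class_card K h2 hx hGP Y μ ρ z (hAz z hzA).2.le (hqN z hzA) _ ?_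
      intro m hm
      obtain ⟨c1, c2⟩ := mem_filter.1 hm
      have c3 := hwin m (mem_filter.1 c1).1
      rw [c2] at c3
      exact mem_Ico.2 c3
    rw [← mul_sum] at b1
    have b3 := h4 (ℕ × ℤ) Al (XScl.Vz K Y μ ρ) (XScl.cz K Y μ ρ) (C * n) lam (by positivity) hlam0
      (fun z hz => ⟨Nat.cast_nonneg _, (mem_filter.1 hz).2, Nat.cast_nonneg _⟩)
      (fun A' hA' => (hT (ℕ × ℤ) A' (XScl.pw K Y μ ρ) (XScl.qw K μ ρ)
        (fun z hz => hqN z (mem_filter.1 (hA' hz)).1)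
        (fun z hz z' hz' hne => hdis z (mem_filter.1 (hA' hz)).1 z' (mem_filter.1 (hA' hz')).1
          hne)).1)
    have b4 : ∑ z ∈ Al, XScl.cz K Y μ ρ z ≤ ∑ z ∈ A, XScl.cz K Y μ ρ z :=
      sum_le_sum_of_subset_of_nonneg (filter_subset _ _) fun _ _ _ => Nat.cast_nonneg _
    refine XScl.num_light (C := C) (n := n) (Q := Q) (M := M)
      (T := ∑ z ∈ Al, XScl.cz K Y μ ρ z) (N := K.N) (ne := n ^ η) (D := D) hC (by linarith) hQ1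
      hM1 (sum_nonneg fun _ _ => Nat.cast_nonneg _) hne1 hQn hCQ (b4.trans hcs) ?_ hQN
      (by exact_mod_cast hNF)
    refine b1.trans ?_
    rw [← hlam]
    nlinarith
  refine ⟨Fh, filter_subset _ _, ?_, ?_⟩
  · have b1 : 2 * Fl.card ≤ F.card := by exact_mod_cast hlight
    omega
  -- the heavy classes
  have hAhc : (Ah.card : ℝ) ≤ (C * n / lam) ^ ((4 : ℝ) / 3) := by
    refine (hT (ℕ × ℤ) Ah (XScl.pw K Y μ ρ) (XScl.qw K μ ρ)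
        (fun z hz => hqN z (mem_filter.1 hz).1)
        (fun z hz z' hz' hne => hdis z (mem_filter.1 hz).1 z' (mem_filter.1 hz').1
          hne)).2 lam hlam0 ?_
    intro z hz
    exact (not_le.1 (mem_filter.1 hz).2).le
  have hsV : ∑ z ∈ Ah, XScl.Vz K Y μ ρ z ≤ C * n * (Ah.card : ℝ) ^ ((1 : ℝ) / 4) :=
    (hT (ℕ × ℤ) Ah (XScl.pw K Y μ ρ) (XScl.qw K μ ρ)
        (fun z hz => hqN z (mem_filter.1 hz).1)
        (fun z hz z' hz' hne => hdis z (mem_filter.1 hz).1 z' (mem_filter.1 hz').1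
          hne)).1
  have hsV2 := XScl.num_heavy (D := D) hC (by linarith) hQ1 hM1 (Nat.cast_nonneg _) hAhc hsV
  have him : im Fh (fun m => (cp m, K.a m)) ≤
      ∑ z ∈ Ah, (k + 2) * (vi K (XScl.pw K Y μ ρ z) (XScl.qw K μ ρ z)).card := by
    unfold im
    have c1 : Fh.image (fun m => (cp m, K.a m)) ⊆ Ah.biUnion (fun z =>
        ((Fh.filter (fun m => XScl.zc K Y μ ρ m = z)).image cp) ×ˢ
          (vi K (XScl.pw K Y μ ρ z) (XScl.qw K μ ρ z))) := by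
      intro w hw
      obtain ⟨m, hm, rfl⟩ := mem_image.1 hw
      have hm' := mem_filter.1 hm
      refine mem_biUnion.2 ⟨XScl.zc K Y μ ρ m, mem_filter.2 ⟨mem_image_of_mem _ hm'.1, hm'.2⟩,
        mem_product.2 ⟨mem_image_of_mem _ (mem_filter.2 ⟨hm, rfl⟩), ?_⟩⟩
      have c3 := hwin m hm'.1
      exact XScl.a_mem_vi K c3.1 c3.2
    refine (card_le_card c1).trans (card_biUnion_le.trans (sum_le_sum fun z hz => ?_))
    rw [card_product]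
    refine Nat.mul_le_mul_right _ ?_
    refine XScl.child_cnt K h5 h6 hcp (Y := Y) μ hρ hQ8 hk2 z _ ?_
    intro m hm
    obtain ⟨c3, c4⟩ := mem_filter.1 hm
    have c5 := (mem_filter.1 c3).1
    exact ⟨hFN m c5, c4, (hμ m c5).1, (hμ m c5).2.1, (hμ m c5).2.2.2⟩
  have him2 : (im Fh (fun m => (cp m, K.a m)) : ℝ) ≤
      ((k : ℝ) + 2) * ∑ z ∈ Ah, XScl.Vz K Y μ ρ z := by
    rw [mul_sum]
    unfold XScl.Vz
    exact_mod_cast him
  refine him2.trans ?_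
  have hM4 : 0 ≤ (M : ℝ) ^ ((1 : ℝ) / 4) := Real.rpow_nonneg (by linarith) _
  calc ((k : ℝ) + 2) * ∑ z ∈ Ah, XScl.Vz K Y μ ρ z
      ≤ ((k : ℝ) + 2) * (C ^ 2 * n * ((M : ℝ) ^ ((1 : ℝ) / 4) * (Q : ℝ) ^ (3 * (D + 4)))) :=
        mul_le_mul_of_nonneg_left hsV2 (by positivity)
    _ = (((k : ℝ) + 2) * C ^ 2) * ((Q : ℝ) ^ (3 * (D + 4)) * n * (M : ℝ) ^ ((1 : ℝ) / 4)) := by
        ring
    _ ≤ (Q : ℝ) * ((Q : ℝ) ^ (3 * (D + 4)) * n * (M : ℝ) ^ ((1 : ℝ) / 4)) :=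
        mul_le_mul_of_nonneg_right hkQ (by positivity)
    _ = (Q : ℝ) ^ (3 * (D + 4) + 1) * n * (M : ℝ) ^ ((1 : ℝ) / 4) := by ring
    _ ≤ (Q : ℝ) ^ (13 * (D + 1)) * n * (M : ℝ) ^ ((1 : ℝ) / 4) := by
        have : (Q : ℝ) ^ (3 * (D + 4) + 1) ≤ (Q : ℝ) ^ (13 * (D + 1)) :=
          pow_le_pow_right₀ hQ1 (by omega)
        have h9 : 0 ≤ n * (M : ℝ) ^ ((1 : ℝ) / 4) := by positivity
        nlinarith [mul_le_mul_of_nonneg_right this h9]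

end Pool.Agent.Work.MP_e17eac_co.MX
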